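import Pool.Agent.H567R2.MMF.MP
import Pool.Agent.H567R2.MMF.CO

/-!
# Skew products with a countable abelian group action in the fibres: basic facts
-/

set_option autoImplicit false

namespace Pool.Agent.TH294.RK

open MeasureTheory Filter Topology H567MM

/-- all consecutive gaps tend to infinity -/
def gapF (r : ℕ) : Filter (Fin r → ℕ) := ⨅ N : ℕ, 𝓟 {n | Gaps N n}

theorem gaps_mono {r N N' : ℕ} (h : N ≤ N') {n : Fin r → ℕ} (hn : Gaps N' n) : Gaps N n :=
  fun i j hij => (Nat.add_le_add_left h _).trans (hn i j hij)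

theorem hasBasis_gapF (r : ℕ) : (gapF r).HasBasis (fun _ : ℕ => True) (fun N => {n | Gaps N n}) := by
  refine hasBasis_iInf_principal ?_
  intro N N'
  exact ⟨max N N', fun n hn => gaps_mono (le_max_left _ _) hn,
    fun n hn => gaps_mono (le_max_right _ _) hn⟩

theorem eventually_gapF {r : ℕ} {p : (Fin r → ℕ) → Prop} :
    (∀ᶠ n in gapF r, p n) ↔ ∃ N : ℕ, ∀ n, Gaps N n → p n := by
  rw [(hasBasis_gapF r).eventually_iff]
  simp

instance gapF_countable (r : ℕ) : (gapF r).IsCountablyGenerated :=
  (hasBasis_gapF r).isCountablyGenerated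

theorem tendsto_castSucc (r : ℕ) :
    Tendsto (fun n : Fin (r + 1) → ℕ => fun i : Fin r => n i.castSucc) (gapF (r + 1)) (gapF r) := by
  rw [(hasBasis_gapF (r + 1)).tendsto_iff (hasBasis_gapF r)]
  intro N _
  exact ⟨N, trivial, fun n hn i j hij => hn _ _ (by simpa using hij)⟩

theorem tendsto_succAbove (r : ℕ) (p : Fin (r + 1)) :
    Tendsto (fun n : Fin (r + 1) → ℕ => fun i : Fin r => n (p.succAbove i)) (gapF (r + 1))
      (gapF r) := by
  rw [(hasBasis_gapF (r + 1)).tendsto_iff (hasBasis_gapF r)]
  intro N _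
  exact ⟨N, trivial, fun n hn i j hij => hn _ _ (by simpa using hij)⟩

theorem gaps_of_succ {k : ℕ} (G : ℕ) (n : Fin (k + 1) → ℕ)
    (h : ∀ j : Fin k, n j.castSucc + G ≤ n j.succ) : Gaps G n := by
  have key : ∀ j : Fin (k + 1), ∀ i : Fin (k + 1), i < j → n i + G ≤ n j := by
    intro j
    induction j using Fin.induction with
    | zero => intro i hi; exact absurd hi (Fin.not_lt_zero i)
    | succ j ih =>
      intro i hi
      have h1 : i ≤ j.castSucc := by
        rw [Fin.le_iff_val_le_val]
        have := Fin.lt_def.1 hi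
        simp at this ⊢
        omega
      have h3 := h j
      rcases h1.lt_or_eq with h2 | h2
      · have h4 := ih i h2
        omega
      · rw [h2]; exact h3
  intro i j hij
  exact key j i hij

theorem succ_of_gaps {k : ℕ} (G : ℕ) (n : Fin (k + 1) → ℕ) (h : Gaps G n) (j : Fin k) :
    n j.castSucc + G ≤ n j.succ := h _ _ (Fin.castSucc_lt_succ)

/-- `MixOrd` in terms of the filter `gapF`: times with `n 0 = 0` -/
theorem mixOrd_iff {X : Type*} [MeasurableSpace X] (μ : Measure X) [IsProbabilityMeasure μ]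
    (T : X → X) (hT : MeasurePreserving T μ μ) (k : ℕ) :
    MixOrd μ T k ↔ ∀ A : Fin (k + 1) → Set X, (∀ j, MeasurableSet (A j)) →
      Tendsto (fun n : Fin (k + 1) → ℕ => μ.real (⋂ j, T^[n j] ⁻¹' A j)) (gapF (k + 1))
        (𝓝 (∏ j, μ.real (A j))) := by
  constructor
  · intro h A hA
    rw [Metric.tendsto_nhds]
    intro ε hε
    obtain ⟨G, hG⟩ := h A hA ε hε
    rw [eventually_gapF]
    refine ⟨G, fun n hn => ?_⟩
    have h0 : ∀ j, n 0 ≤ n j := by
      intro j
      rcases (Fin.zero_le j).eq_or_lt with h | h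
      · rw [h]
      · exact (Nat.le_add_right _ _).trans (hn 0 j h)
    have h1 := hG (fun j => n j - n 0) (by simp) (fun j => by
      have := succ_of_gaps G n hn j
      have := h0 j.castSucc
      omega)
    have e : (⋂ j, T^[n j] ⁻¹' A j) = T^[n 0] ⁻¹' (⋂ j, T^[n j - n 0] ⁻¹' A j) := by
      ext x
      simp only [Set.mem_iInter, Set.mem_preimage]
      refine forall_congr' fun j => ?_
      rw [← Function.iterate_add_apply, Nat.sub_add_cancel (h0 j)]
    have hm : MeasurableSet (⋂ j, T^[n j - n 0] ⁻¹' A j) :=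
      MeasurableSet.iInter fun j => (hT.iterate _).measurable (hA j)
    rw [e, (hT.iterate (n 0)).measureReal_preimage hm.nullMeasurableSet, Real.dist_eq]
    exact h1
  · intro h A hA ε hε
    have h1 := Metric.tendsto_nhds.1 (h A hA) ε hε
    rw [eventually_gapF] at h1
    obtain ⟨G, hG⟩ := h1
    refine ⟨G, fun n _ hn => ?_⟩
    have := hG n (gaps_of_succ G n hn)
    rwa [Real.dist_eq] at this

theorem mixOrd_one_of {X : Type*} [MeasurableSpace X] (μ : Measure X) [IsProbabilityMeasure μ]
    (S : X → X) (hS : MeasurePreserving S μ μ) (k : ℕ) (hk : MixOrd μ S (k + 1)) :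
    MixOrd μ S 1 := by
  rw [MP_aux_iff]
  intro A B hA hB
  rw [mixOrd_iff μ S hS] at hk
  rw [Metric.tendsto_atTop]
  intro ε hε
  let A' : Fin (k + 1 + 1) → Set X := fun j => if j.val = 0 then A else if j.val = 1 then B else Set.univ
  have hA' : ∀ j, MeasurableSet (A' j) := by
    intro j
    simp only [A']
    split_ifs
    · exact hA
    · exact hB
    · exact MeasurableSet.univ
  have h1 := Metric.tendsto_nhds.1 (hk A' hA') ε hε
  rw [eventually_gapF] at h1
  obtain ⟨G, hG⟩ := h1
  refine ⟨G, fun m hm => ?_⟩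
  have h2 := hG (fun j => if j.val = 0 then 0 else m + (j.val - 1) * G) (by
    intro i j hij
    have hij' := Fin.lt_def.1 hij
    simp only
    rw [if_neg (by omega : ¬ j.val = 0)]
    by_cases hi : i.val = 0
    · rw [if_pos hi]
      have : 0 ≤ (j.val - 1) * G := Nat.zero_le _
      omega
    · rw [if_neg hi]
      have e : j.val - 1 = (i.val - 1) + (j.val - i.val) := by omega
      rw [e, add_mul]
      have : 1 * G ≤ (j.val - i.val) * G := Nat.mul_le_mul_right _ (by omega)
      omega)
  have e1 : (⋂ j : Fin (k + 1 + 1), S^[if j.val = 0 then 0 else m + (j.val - 1) * G] ⁻¹' A' j) =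
      A ∩ S^[m] ⁻¹' B := by
    ext x
    simp only [Set.mem_iInter, Set.mem_preimage, Set.mem_inter_iff]
    constructor
    · intro h
      refine ⟨by simpa [A'] using h 0, ?_⟩
      have h3 := h 1
      simpa [A'] using h3
    · rintro ⟨h3, h4⟩ j
      by_cases hj : j.val = 0
      · have ea : A' j = A := if_pos hj
        rw [if_pos hj, ea]
        exact h3
      · by_cases hj1 : j.val = 1
        · have ea : A' j = B := (if_neg hj).trans (if_pos hj1)
          rw [if_neg hj, ea, hj1]
          simpa using h4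
        · have ea : A' j = Set.univ := (if_neg hj).trans (if_neg hj1)
          rw [ea]
          trivial
  have e2 : ∏ j, μ.real (A' j) = μ.real A * μ.real B := by
    rw [Fin.prod_univ_succ, Fin.prod_univ_succ]
    have : ∏ i : Fin k, μ.real (A' i.succ.succ) = 1 := by
      refine Finset.prod_eq_one fun i _ => ?_
      simp [A']
    rw [this, mul_one]
    simp [A']
  rw [e1, e2] at h2
  exact h2

end Pool.Agent.TH294.RK
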