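import Pool.Agent.TH294.RK.DecInd
import Pool.Agent.H567R2.MMF.CA

/-!
# Frequent collisions: the cocycle is a constant up to a coboundary and a finite subgroup
-/

set_option autoImplicit false
set_option linter.unusedSectionVars false

namespace Pool.Agent.TH294.RK

open MeasureTheory Filter Topology H567MM
open scoped Pointwise

theorem stab_finite {G : Type*} [CommGroup G] [DecidableEq G] (s : Finset G) (hs : s.Nonempty) :
    Finite (MulAction.stabilizer G s) := by
  obtain ⟨a, ha⟩ := hs
  have h1 : ∀ h : MulAction.stabilizer G s, (h : G) * a ∈ s := by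
    intro h
    have h2 : (h : G) • s = s := MulAction.mem_stabilizer_iff.1 h.2
    have h3 : (h : G) * a ∈ (h : G) • s := Finset.mem_smul_finset.2 ⟨a, ha, rfl⟩
    exact (Finset.ext_iff.1 h2 _).1 h3
  refine Finite.of_injective (fun h : MulAction.stabilizer G s => (⟨(h : G) * a, h1 h⟩ : s)) ?_
  intro h h' hh
  have := congrArg Subtype.val hh
  exact Subtype.ext (mul_right_cancel this)

theorem exists_cob2 {Ω G : Type*} [MeasurableSpace Ω] (P : Measure Ω)
    [IsProbabilityMeasure P] (S : Ω → Ω) (hS : Ergodic S P) [CommGroup G]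
    [Countable G] [MeasurableSpace G] [DiscreteMeasurableSpace G] (ψ : Ω → G)
    (B : Set (Ω × G)) (hB : MeasurableSet B)
    (h0 : (P.prod Measure.count) B ≠ 0) (h1 : (P.prod Measure.count) B ≠ ⊤)
    (hinv : ∀ᵐ ω ∂P, ∀ g : G, ((ω, g) ∈ B ↔ (S ω, g * ψ ω) ∈ B)) :
    ∃ H : Subgroup G, Finite H ∧ ∃ u : Ω → G, Measurable u ∧
      ∀ᵐ ω ∂P, u (S ω) / (u ω * ψ ω) ∈ H := by
  classical
  have hBg : ∀ g, MeasurableSet {ω | (ω, g) ∈ B} := fun g => measurable_prodMk_right hB
  set F : Ω → Set G := fun ω => Prod.mk ω ⁻¹' B with hF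
  set fs : Ω → Finset G := fun ω => if h : (F ω).Finite then h.toFinset else ∅ with hfs
  have hfin : ∀ ω, (F ω).Finite → ((fs ω : Finset G) : Set G) = F ω := by
    intro ω h
    simp only [hfs, dif_pos h, Set.Finite.coe_toFinset]
  have hset : ∀ ω (s : Finset G), s.Nonempty → (fs ω = s ↔ ∀ g, ((ω, g) ∈ B ↔ g ∈ s)) := by
    intro ω s hs
    constructor
    · intro h g
      have hf : (F ω).Finite := by
        by_contra hc
        simp only [hfs, dif_neg hc] at h
        exact hs.ne_empty h.symm
      have h2 := hfin ω hf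
      rw [h] at h2
      have : g ∈ (s : Set G) ↔ g ∈ F ω := by rw [h2]
      rw [Finset.mem_coe] at this
      exact this.symm
    · intro h
      have e : F ω = (s : Set G) := by
        ext g
        exact h g
      have hf : (F ω).Finite := by rw [e]; exact s.finite_toSet
      have h2 := hfin ω hf
      rw [e] at h2
      exact Finset.coe_injective h2
  have hms : ∀ s : Finset G, s.Nonempty → MeasurableSet {ω | fs ω = s} := by
    intro s hs
    have e : {ω | fs ω = s} = ⋂ g : G, {ω | (ω, g) ∈ B ↔ g ∈ s} := by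
      ext ω
      simp only [Set.mem_ofPred_eq, Set.mem_iInter]
      exact hset ω s hs
    rw [e]
    refine MeasurableSet.iInter (fun g => ?_)
    by_cases hg : g ∈ s
    · have : {ω | (ω, g) ∈ B ↔ g ∈ s} = {ω | (ω, g) ∈ B} := by
        ext ω; simp [hg]
      rw [this]; exact hBg g
    · have : {ω | (ω, g) ∈ B ↔ g ∈ s} = {ω | (ω, g) ∈ B}ᶜ := by
        ext ω; simp [hg]
      rw [this]; exact (hBg g).compl
  have hm : ∀ s : Finset G, MeasurableSet {ω | fs ω = s} := by
    intro s
    rcases s.eq_empty_or_nonempty with rfl | hs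
    · have e : {ω | fs ω = ∅} = (⋃ s ∈ {s : Finset G | s.Nonempty}, {ω | fs ω = s})ᶜ := by
        ext ω
        simp only [Set.mem_ofPred_eq, Set.mem_compl_iff, Set.mem_iUnion, not_exists, exists_prop]
        constructor
        · rintro h s ⟨hs, rfl⟩
          exact hs.ne_empty h
        · intro h
          by_contra hc
          exact h (fs ω) ⟨Finset.nonempty_iff_ne_empty.mpr hc, rfl⟩
      rw [e]
      exact (MeasurableSet.biUnion (Set.to_countable _) (fun s hs => hms s hs)).compl
    · exact hms s hs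
  have hcount : (P.prod Measure.count) B = ∫⁻ ω, Measure.count (F ω) ∂P :=
    Measure.prod_apply hB
  have hae : ∀ᵐ ω ∂P, (F ω).Finite := by
    have h2 := ae_lt_top (μ := P) (measurable_measure_prodMk_left (ν := Measure.count) hB)
      (by rw [← hcount]; exact h1)
    filter_upwards [h2] with ω hω
    exact Measure.count_apply_lt_top.mp hω
  have hstep : ∀ᵐ ω ∂P, fs (S ω) = ψ ω • fs ω := by
    filter_upwards [hae, hS.toMeasurePreserving.quasiMeasurePreserving.ae hae, hinv]
      with ω h2 h3 h4
    apply Finset.coe_injective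
    rw [Finset.coe_smul_finset, hfin _ h3, hfin _ h2]
    ext g
    rw [Set.mem_smul_set]
    constructor
    · intro hg
      refine ⟨g * (ψ ω)⁻¹, (h4 _).mpr ?_, ?_⟩
      · rw [inv_mul_cancel_right]
        exact hg
      · rw [smul_eq_mul, mul_comm, inv_mul_cancel_right]
    · rintro ⟨g', hg', rfl⟩
      rw [smul_eq_mul, mul_comm]
      exact (h4 g').mp hg'
  -- the class of `fs ω` modulo translations is constant
  let κ := Quotient (MulAction.orbitRel G (Finset G))
  let _ : MeasurableSpace κ := ⊤
  have : DiscreteMeasurableSpace κ := ⟨fun _ => trivial⟩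
  let cl : Finset G → κ := fun s => Quotient.mk _ s
  obtain ⟨c, hc⟩ := const_of_ergodic P S hS (fun ω => cl (fs ω))
    (CB_aux_meas fs hm cl) (by
      filter_upwards [hstep] with ω h2
      rw [h2]
      exact Quotient.sound ⟨ψ ω, rfl⟩)
  obtain ⟨s₀, hs₀⟩ := Quotient.exists_rep c
  have hrep : ∀ᵐ ω ∂P, ∃ g : G, fs ω = g • s₀ := by
    filter_upwards [hc] with ω h2
    have h3 : cl (fs ω) = cl s₀ := by rw [h2]; exact hs₀.symm
    obtain ⟨g, hg⟩ := Quotient.exact h3
    exact ⟨g, hg.symm⟩
  have hne : s₀.Nonempty := by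
    by_contra hcon
    rw [Finset.not_nonempty_iff_eq_empty] at hcon
    apply h0
    rw [hcount, lintegral_eq_zero_iff (measurable_measure_prodMk_left hB)]
    filter_upwards [hrep, hae] with ω h2 h3
    obtain ⟨g, hg⟩ := h2
    rw [hcon, Finset.smul_finset_empty] at hg
    have h4 := hfin ω h3
    rw [hg, Finset.coe_empty] at h4
    show Measure.count (F ω) = 0
    rw [← h4, measure_empty]
  refine ⟨MulAction.stabilizer G s₀, stab_finite s₀ hne,
    fun ω => if h : ∃ g : G, fs ω = g • s₀ then h.choose else 1,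
    CB_aux_meas fs hm (fun s => if h : ∃ g : G, s = g • s₀ then h.choose else 1), ?_⟩
  filter_upwards [hrep, hS.toMeasurePreserving.quasiMeasurePreserving.ae hrep, hstep]
    with ω h2 h3 h4
  simp only [dif_pos h2, dif_pos h3]
  have e2 := h2.choose_spec
  have e3 := h3.choose_spec
  rw [MulAction.mem_stabilizer_iff]
  set g2 := h2.choose
  set g3 := h3.choose
  have e5 : g3 • s₀ = (g2 * ψ ω) • s₀ := by
    rw [← e3, h4, e2, smul_smul, mul_comm]
  rw [div_eq_mul_inv, mul_comm, mul_smul, e5, inv_smul_smul]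

/-- If two independent copies of the cocycle collide with positive density, then the cocycle is
cohomologous to a constant modulo a finite subgroup. -/
theorem not_disp {X G : Type*} [MeasurableSpace X] (μ : Measure X)
    [IsProbabilityMeasure μ] (S : X → X) (hS : MeasurePreserving S μ μ) (hmix : MixOrd μ S 1)
    [CommGroup G] [Countable G] (φ : X → G) (hφ : ∀ g, MeasurableSet {x | φ x = g})
    (h : ¬ Disp μ S φ) :
    ∃ (H : Subgroup G) (v : G) (b : X → G), Finite H ∧ (∀ g, MeasurableSet {x | b x = g}) ∧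
      ∀ᵐ x ∂μ, ∃ t ∈ H, φ x = v * (b (S x) / b x) * t := by
  let _ : MeasurableSpace G := ⊤
  have : DiscreteMeasurableSpace G := ⟨fun _ => trivial⟩
  have hφm : Measurable φ := measurable_to_countable' fun g => hφ g
  unfold Disp at h
  push Not at h
  obtain ⟨c, hc, h⟩ := h
  have hS2 : MeasurePreserving (Prod.map S S) (μ.prod μ) (μ.prod μ) := hS.prod hS
  have mix2 : MixOrd (μ.prod μ) (Prod.map S S) 1 := mix_prod μ μ S S hS hS hmix hmix
  have mix3 : MixOrd (μ.prod (μ.prod μ)) (Prod.map S (Prod.map S S)) 1 :=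
    mix_prod μ (μ.prod μ) S (Prod.map S S) hS hS2 hmix mix2
  have erg2 : Ergodic (Prod.map S S) (μ.prod μ) := ergodic_of_mix _ _ hS2 mix2
  have erg3 : Ergodic (Prod.map S (Prod.map S S)) (μ.prod (μ.prod μ)) :=
    ergodic_of_mix _ _ (hS.prod hS2) mix3
  have hdiv : Measurable (fun q : G × G => q.1 / q.2) := measurable_of_countable _
  have hψ : Measurable (fun z : X × X => φ z.1 / φ z.2) :=
    hdiv.comp ((hφm.comp measurable_fst).prodMk (hφm.comp measurable_snd))
  obtain ⟨B, hB, h0, h1, hinv⟩ := exists_inv_set (μ.prod μ) (Prod.map S S) hS2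
    (fun z : X × X => φ z.1 / φ z.2) hψ c hc (by
      intro N₀
      obtain ⟨N, hN, hN2⟩ := h N₀
      refine ⟨N, hN, hN2.trans (le_of_eq (Finset.sum_congr rfl ?_))⟩
      intro n _
      congr 1
      ext z
      simp only [Set.mem_ofPred_eq]
      rw [CA_aux_coc, div_eq_one])
  obtain ⟨H, hH, u, hu, hu2⟩ := exists_cob2 (μ.prod μ) (Prod.map S S) erg2
    (fun z : X × X => φ z.1 / φ z.2) B hB h0 h1 hinv
  -- pass to the quotient by `H`
  let _ : MeasurableSpace (G ⧸ H) := ⊤
  have : DiscreteMeasurableSpace (G ⧸ H) := ⟨fun _ => trivial⟩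
  have : Countable (G ⧸ H) := (QuotientGroup.mk_surjective (s := H)).countable
  have hq : Measurable (fun g : G => (QuotientGroup.mk g : G ⧸ H)) := measurable_of_countable _
  obtain ⟨l, p, hp, hp2⟩ := H567MM.exists_const μ S hS erg3 (fun x => (QuotientGroup.mk (φ x) : G ⧸ H))
    (hq.comp hφm) (fun z => (QuotientGroup.mk (u z) : G ⧸ H)) (hq.comp hu) (by
    filter_upwards [hu2] with z hz
    have e : (S z.1, S z.2) = Prod.map S S z := rfl
    rw [e]
    have h2 : (QuotientGroup.mk (u (Prod.map S S z)) : G ⧸ H) =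
        QuotientGroup.mk (u z * (φ z.1 / φ z.2)) := by
      rw [eq_comm, QuotientGroup.eq]
      rw [div_eq_mul_inv, mul_comm] at hz
      exact hz
    rw [h2]
    rfl)
  refine ⟨H, Quotient.out l, fun x => Quotient.out (p x), hH, ?_, ?_⟩
  · intro g
    have h3 : Measurable (fun x => (Quotient.out (p x) : G)) :=
      (measurable_of_countable (fun q : G ⧸ H => (Quotient.out q : G))).comp hp
    exact h3 (measurableSet_singleton g)
  · filter_upwards [hp2] with x hx
    have h4 : (QuotientGroup.mk (φ x) : G ⧸ H) =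
        QuotientGroup.mk ((Quotient.out l : G) * ((Quotient.out (p (S x)) : G) /
          (Quotient.out (p x) : G))) := by
      rw [hx, QuotientGroup.mk_mul, QuotientGroup.mk_div]
      have e1 : ∀ q : G ⧸ H, (QuotientGroup.mk (Quotient.out q : G) : G ⧸ H) = q :=
        fun q => QuotientGroup.out_eq' q
      rw [e1, e1, e1, mul_div_assoc]
    rw [eq_comm, QuotientGroup.eq] at h4
    refine ⟨_, h4, ?_⟩
    rw [mul_inv_cancel_left]

end Pool.Agent.TH294.RK
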