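import Pool.Agent.TH294.RK.Basic
import Pool.Agent.H567R2.MMF.CL

/-!
# Collisions of a cocycle, choice of times
-/

set_option autoImplicit false

namespace Pool.Agent.TH294.RK

open MeasureTheory Filter Topology H567MM

theorem sum_sq_le {X G : Type*} [MeasurableSpace X] (μ : Measure X) [IsProbabilityMeasure μ]
    (v : X → G) (hv : ∀ g : G, MeasurableSet {x | v x = g}) (Φ : Finset G) :
    ∑ g ∈ Φ, μ.real {x | v x = g} ^ 2 ≤ (μ.prod μ).real {z | v z.1 = v z.2} := by
  have e1 : ∀ g ∈ Φ, μ.real {x | v x = g} ^ 2 =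
      (μ.prod μ).real ({x | v x = g} ×ˢ {x | v x = g}) := by
    intro g _
    unfold Measure.real
    rw [Measure.prod_prod, ENNReal.toReal_mul, sq]
  rw [Finset.sum_congr rfl e1, ← measureReal_biUnion_finset]
  · refine measureReal_mono ?_ (measure_ne_top _ _)
    intro z hz
    rw [Set.mem_iUnion₂] at hz
    obtain ⟨g, _, h1, h2⟩ := hz
    exact h1.trans h2.symm
  · intro g _ g' _ hne
    rw [Function.onFun, Set.disjoint_left]
    intro z hz hz'
    exact hne (hz.1.symm.trans hz'.1)
  · intro g _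
    exact (hv g).prod (hv g)

/-- shifted collisions of `v (x)` and `v (S^n x)` are not more likely than collisions of
independent copies -/
theorem collision_shift {X G : Type*} [MeasurableSpace X] (μ : Measure X)
    [IsProbabilityMeasure μ] (S : X → X) (hS : MeasurePreserving S μ μ) (hmix : MixOrd μ S 1)
    [Group G] [Countable G] (v : X → G) (hv : ∀ g : G, MeasurableSet {x | v x = g}) (κ : G)
    (ε : ℝ) (hε : 0 < ε) :
    ∃ N : ℕ, ∀ n : ℕ, N ≤ n →
      μ.real {x | v x = κ * v (S^[n] x)} < (μ.prod μ).real {z | v z.1 = v z.2} + ε := by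
  classical
  obtain ⟨Φ, hΦ⟩ := CL_aux_finset μ v hv (ε / 2) (by linarith)
  set δ : ℝ := ε / (2 * ((Φ.card : ℝ) + 1)) with hδ
  have hδ0 : 0 < δ := by positivity
  rw [MP_aux_iff] at hmix
  have hmix' : ∀ g : G, ∃ N : ℕ, ∀ n : ℕ, N ≤ n →
      μ.real ({x | v x = κ * g} ∩ S^[n] ⁻¹' {x | v x = g}) <
        μ.real {x | v x = κ * g} * μ.real {x | v x = g} + δ := by
    intro g
    obtain ⟨N, hN⟩ := Metric.tendsto_atTop.1 (hmix _ _ (hv (κ * g)) (hv g)) δ hδ0
    refine ⟨N, fun n hn => ?_⟩
    have h1 := hN n hn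
    rw [Real.dist_eq] at h1
    have := (abs_lt.1 h1).2
    linarith
  choose N hN using hmix'
  refine ⟨Φ.sup N, fun n hn => ?_⟩
  have hsub : {x | v x = κ * v (S^[n] x)} ⊆ S^[n] ⁻¹' {x | v x ∉ Φ} ∪
      ⋃ g ∈ Φ, ({x | v x = κ * g} ∩ S^[n] ⁻¹' {x | v x = g}) := by
    intro x hx
    by_cases h : v (S^[n] x) ∈ Φ
    · right
      rw [Set.mem_iUnion₂]
      exact ⟨v (S^[n] x), h, hx, rfl⟩
    · exact Or.inl h
  have hmΦ : MeasurableSet {x | v x ∉ Φ} := by
    have : {x | v x ∉ Φ} = (⋃ g ∈ Φ, {x | v x = g})ᶜ := by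
      ext x
      simp
    rw [this]
    exact (Finset.measurableSet_biUnion _ fun g _ => hv g).compl
  have h1 : μ.real {x | v x = κ * v (S^[n] x)} ≤ μ.real {x | v x ∉ Φ} +
      ∑ g ∈ Φ, μ.real ({x | v x = κ * g} ∩ S^[n] ⁻¹' {x | v x = g}) := by
    refine (measureReal_mono hsub).trans ((measureReal_union_le _ _).trans
      (add_le_add (le_of_eq ?_) (measureReal_biUnion_finset_le _ _)))
    exact (hS.iterate n).measureReal_preimage hmΦ.nullMeasurableSet
  have h2 : ∑ g ∈ Φ, μ.real ({x | v x = κ * g} ∩ S^[n] ⁻¹' {x | v x = g}) ≤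
      ∑ g ∈ Φ, ((μ.real {x | v x = κ * g} ^ 2 + μ.real {x | v x = g} ^ 2) / 2 + δ) := by
    refine Finset.sum_le_sum fun g hg => ?_
    have := hN g n ((Finset.le_sup hg).trans hn)
    nlinarith [sq_nonneg (μ.real {x | v x = κ * g} - μ.real {x | v x = g})]
  rw [Finset.sum_add_distrib, Finset.sum_const, nsmul_eq_mul, ← Finset.sum_div,
    Finset.sum_add_distrib] at h2
  have h3 := sum_sq_le μ v hv Φ
  have h3' : ∑ g ∈ Φ, μ.real {x | v x = κ * g} ^ 2 ≤ (μ.prod μ).real {z | v z.1 = v z.2} := by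
    have := sum_sq_le μ v hv (Φ.image (fun g => κ * g))
    rwa [Finset.sum_image (fun a _ b _ hab => mul_left_cancel hab)] at this
  have h4 : (Φ.card : ℝ) * δ < ε / 2 := by
    rw [hδ, ← mul_div_assoc, div_lt_div_iff₀ (by positivity) (by norm_num)]
    nlinarith
  linarith

/-- choice of times with small values of `p` at all the differences -/
theorem exists_times (p : ℕ → ℝ) (hp : ∀ n, 0 ≤ p n)
    (h : ∀ c : ℝ, 0 < c → ∃ N₀ : ℕ, ∀ N ≥ N₀, ∑ n ∈ Finset.range N, p n < c * N) (δ : ℝ)
    (hδ : 0 < δ) (M : ℕ) :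
    ∃ T : Finset ℕ, T.card = M ∧ ∀ a ∈ T, ∀ b ∈ T, b < a → p (a - b) < δ := by
  classical
  induction M with
  | zero => exact ⟨∅, rfl, by simp⟩
  | succ M ih =>
    obtain ⟨T, hT, hTp⟩ := ih
    set m : ℕ := T.sup id with hm
    have hmT : ∀ b ∈ T, b ≤ m := fun b hb => Finset.le_sup (f := id) hb
    obtain ⟨t, ht, htp⟩ : ∃ t, m < t ∧ ∀ b ∈ T, p (t - b) < δ := by
      by_contra hcon
      push Not at hcon
      set c : ℝ := δ / (2 * ((M : ℝ) + 1)) with hc
      have hc0 : 0 < c := by positivity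
      obtain ⟨N₀, hN₀⟩ := h c hc0
      set N : ℕ := max N₀ (2 * m + 2) with hN
      have hNs := hN₀ N (le_max_left _ _)
      have h1 : δ * ((N : ℝ) - 1 - m) ≤ ∑ t ∈ Finset.Ico (m + 1) N, ∑ b ∈ T, p (t - b) := by
        have h2 : ∑ t ∈ Finset.Ico (m + 1) N, δ ≤ ∑ t ∈ Finset.Ico (m + 1) N, ∑ b ∈ T, p (t - b) := by
          refine Finset.sum_le_sum fun t ht => ?_
          rw [Finset.mem_Ico] at ht
          obtain ⟨b, hb, hbp⟩ := hcon t (by omega)
          exact hbp.trans (Finset.single_le_sum (f := fun b => p (t - b)) (fun b _ => hp _) hb)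
        refine le_trans (le_of_eq ?_) h2
        rw [Finset.sum_const, Nat.card_Ico, nsmul_eq_mul, Nat.cast_sub (by
          have := le_max_right N₀ (2 * m + 2)
          omega)]
        push_cast
        ring
      have h3 : ∑ t ∈ Finset.Ico (m + 1) N, ∑ b ∈ T, p (t - b) ≤ M * (c * N) := by
        rw [Finset.sum_comm]
        refine (Finset.sum_le_card_nsmul T _ (c * N) fun b hb => ?_).trans ?_
        · refine le_trans ?_ hNs.le
          have h4 : ∑ t ∈ Finset.Ico (m + 1) N, p (t - b) =
              ∑ s ∈ (Finset.Ico (m + 1) N).image (fun t => t - b), p s := by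
            rw [Finset.sum_image]
            intro x hx y hy hxy
            have hx' := Finset.mem_Ico.1 hx
            have hy' := Finset.mem_Ico.1 hy
            have := hmT b hb
            have hxy' : x - b = y - b := hxy
            omega
          rw [h4]
          refine Finset.sum_le_sum_of_subset_of_nonneg ?_ fun _ _ _ => hp _
          intro s hs
          obtain ⟨t, ht, rfl⟩ := Finset.mem_image.1 hs
          rw [Finset.mem_Ico] at ht
          rw [Finset.mem_range]
          omega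
        · rw [hT, nsmul_eq_mul]
      have h5 : (M : ℝ) * (c * N) ≤ δ / 2 * N := by
        rw [hc]
        have h6 : (M : ℝ) * (δ / (2 * ((M : ℝ) + 1)) * N) =
            ((M : ℝ) / ((M : ℝ) + 1)) * (δ / 2 * N) := by
          field_simp
        rw [h6]
        have h7 : (M : ℝ) / ((M : ℝ) + 1) ≤ 1 := by
          rw [div_le_one (by positivity)]
          linarith
        have h8 : 0 ≤ δ / 2 * N := by positivity
        nlinarith
      have h9 : (2 * m + 2 : ℝ) ≤ N := by
        have := le_max_right N₀ (2 * m + 2)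
        exact_mod_cast this
      have h10 : δ * ((N : ℝ) - 1 - m) ≤ δ / 2 * N := h1.trans (h3.trans h5)
      have h11 : (N : ℝ) / 2 ≤ (N : ℝ) - 1 - m := by linarith
      have h12 : δ * ((N : ℝ) / 2) ≤ δ * ((N : ℝ) - 1 - m) := by nlinarith
      -- equality is excluded by the strict inequality
      have h13 : ∑ t ∈ Finset.Ico (m + 1) N, ∑ b ∈ T, p (t - b) ≤ M * (c * N) := h3
      have hN0 : (0 : ℝ) < N := by linarith [(Nat.cast_nonneg m : (0 : ℝ) ≤ m)]
      have h14 : (M : ℝ) * (c * N) < δ / 2 * N := by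
        rw [hc]
        have h6 : (M : ℝ) * (δ / (2 * ((M : ℝ) + 1)) * N) =
            ((M : ℝ) / ((M : ℝ) + 1)) * (δ / 2 * N) := by
          field_simp
        rw [h6]
        have h7 : (M : ℝ) / ((M : ℝ) + 1) < 1 := by
          rw [div_lt_one (by positivity)]
          linarith
        have h8 : 0 < δ / 2 * N := by positivity
        nlinarith
      linarith
    refine ⟨insert t T, ?_, ?_⟩
    · rw [Finset.card_insert_of_notMem, hT]
      intro hmem
      have := hmT t hmem
      omega
    · intro a ha b hb hba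
      rw [Finset.mem_insert] at ha hb
      rcases ha with rfl | ha
      · rcases hb with rfl | hb
        · omega
        · exact htp b hb
      · rcases hb with rfl | hb
        · have := hmT a ha
          omega
        · exact hTp a ha b hb hba

end Pool.Agent.TH294.RK
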