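import Pool.Agent.TH294.RK.Off

/-!
# Decorrelation of the fibre integrals
-/

set_option autoImplicit false
set_option linter.unusedSectionVars false

namespace Pool.Agent.TH294.RK

open MeasureTheory Filter Topology H567MM

variable {X Y G : Type*} [MeasurableSpace X] [MeasurableSpace Y] [CommGroup G] [Countable G]
  [MulAction G Y]

/-- the collisions of two independent copies of the cocycle have density zero in the mean -/
def Disp (μ : Measure X) (S : X → X) (φ : X → G) : Prop :=
  ∀ c : ℝ, 0 < c → ∃ N₀ : ℕ, ∀ N ≥ N₀, ∑ n ∈ Finset.range N,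
    (μ.prod μ).real {z : X × X | coc S φ n z.1 = coc S φ n z.2} < c * N

theorem Gam_comm (ν : Measure Y) (S : X → X) (φ : X → G) {s : ℕ} (q : Fin (s + 2) → Y → ℝ)
    (n : Fin (s + 2) → ℕ) (a b : ℕ) (x : X) : Gam ν S φ q n a b x = Gam ν S φ q n b a x := by
  rw [Gam, Gam]
  congr 1
  funext y
  rw [mul_comm]

theorem Gam_le (ν : Measure Y) [IsProbabilityMeasure ν] (S : X → X) (φ : X → G) {s : ℕ}
    (q : Fin (s + 2) → Y → ℝ) (B : ℝ) (hB0 : 0 ≤ B) (hB : ∀ i y, |q i y| ≤ B)
    (n : Fin (s + 2) → ℕ) (a b : ℕ) (x : X) : |Gam ν S φ q n a b x| ≤ B ^ (2 * s + 2) := by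
  have h2 : B ^ (2 * s + 2) = B ^ (s + 1) * B ^ (s + 1) := by
    rw [← pow_add]
    congr 1
    omega
  rw [h2]
  refine int_abs_le ν _ _ fun y => ?_
  rw [abs_mul]
  refine mul_le_mul ?_ ?_ (abs_nonneg _) (pow_nonneg hB0 _)
  · have := abs_prod_le Finset.univ (fun i : Fin (s + 1) =>
      q i.castSucc (ww S φ n a i x • (coc S φ (n i.castSucc) x • y))) B (fun i => hB _ _)
    simpa using this
  · have := abs_prod_le Finset.univ (fun i : Fin (s + 1) =>
      q i.castSucc (ww S φ n b i x • (coc S φ (n i.castSucc) x • y))) B (fun i => hB _ _)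
    simpa using this

theorem theta_le (ν : Measure Y) [IsProbabilityMeasure ν] (S : X → X) (φ : X → G) {r : ℕ}
    (q : Fin r → Y → ℝ) (B : ℝ) (hB : ∀ i y, |q i y| ≤ B)
    (n : Fin r → ℕ) (x : X) : |theta ν S φ q n x| ≤ B ^ r := by
  refine int_abs_le ν _ _ fun y => ?_
  have := abs_prod_le Finset.univ (fun i : Fin r => q i (coc S φ (n i) x • y)) B
    (fun i => hB _ _)
  simpa using this

/-- the fibre integrals with a function of mean zero tend to zero -/
theorem mean_zero (μ : Measure X) [IsProbabilityMeasure μ] (ν : Measure Y)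
    [IsProbabilityMeasure ν]
    (hU : ∀ g : G, MeasurePreserving (fun y : Y => g • y) ν ν) (hmixU : MixAct G ν) (S : X → X)
    (hS : MeasurePreserving S μ μ) (hmix : MixOrd μ S 1) (φ : X → G)
    (hφ : ∀ g, MeasurableSet {x | φ x = g}) (hdisp : Disp μ S φ) {s : ℕ}
    (hdec : Dec μ ν S φ (s + 1))
    (q : Fin (s + 2) → Y → ℝ)
    (hq : ∀ i, Measurable (q i)) (B : ℝ) (hB1 : 1 ≤ B) (hB : ∀ i y, |q i y| ≤ B)
    (h0 : ∫ y, q 0 y ∂ν = 0) :
    Tendsto (fun n => ∫ x, |theta ν S φ q n x| ∂μ) (gapF (s + 2)) (𝓝 0) := by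
  have hB0 : 0 ≤ B := by linarith
  have hBp : ∀ m : ℕ, 0 < B ^ m := fun m => pow_pos (by linarith) m
  rw [Metric.tendsto_nhds]
  intro ε hε
  set τ : ℝ := ε ^ 2 / (4 * B ^ 2) with hτ
  have hτ0 : 0 < τ := by have := hBp 2; positivity
  obtain ⟨δ, hδ, hoff⟩ := off μ ν hU hmixU S hS hmix φ hφ hdec q hq B hB1 hB h0 τ hτ0
  obtain ⟨M, hM⟩ := exists_nat_gt (4 * B ^ (2 * s + 4) / ε ^ 2)
  have hM0 : (0 : ℝ) < M := lt_of_le_of_lt (by have := hBp (2 * s + 4); positivity) hM
  obtain ⟨T, hT, hTp⟩ := exists_times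
    (fun n => (μ.prod μ).real {z : X × X | coc S φ n z.1 = coc S φ n z.2})
    (fun n => measureReal_nonneg) hdisp δ hδ M
  have hev : ∀ᶠ n in gapF (s + 2), ∀ a ∈ T, ∀ b ∈ T, b < a →
      ∫ x, |Gam ν S φ q n a b x| ∂μ < τ := by
    rw [Finset.eventually_all]
    intro a ha
    rw [Finset.eventually_all]
    intro b hb
    by_cases hab : b < a
    · filter_upwards [hoff a b hab (hTp a ha b hb hab)] with n hn _
      exact hn
    · exact Eventually.of_forall fun n h => absurd h hab
  filter_upwards [hev] with n hn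
  have hvdc := vdc μ ν hU S hS φ hφ q hq B hB n T
  have hsum : ∑ a ∈ T, ∑ b ∈ T, ∫ x, |Gam ν S φ q n a b x| ∂μ ≤
      ∑ a ∈ T, ∑ b ∈ T, ((if a = b then B ^ (2 * s + 2) else 0) + τ) := by
    refine Finset.sum_le_sum fun a ha => Finset.sum_le_sum fun b hb => ?_
    rcases lt_trichotomy a b with hab | hab | hab
    · rw [if_neg hab.ne, zero_add]
      simp only [Gam_comm ν S φ q n a b]
      exact (hn b hb a ha hab).le
    · rw [if_pos hab]
      have h1 : ∫ x, |Gam ν S φ q n a b x| ∂μ ≤ B ^ (2 * s + 2) := by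
        refine (le_abs_self _).trans (int_abs_le μ _ _ fun x => ?_)
        rw [abs_abs]
        exact Gam_le ν S φ q B hB0 hB n a b x
      linarith
    · rw [if_neg hab.ne', zero_add]
      exact (hn a ha b hb hab).le
  have hsum2 : ∑ a ∈ T, ∑ b ∈ T, ((if a = b then B ^ (2 * s + 2) else 0) + τ) =
      M * B ^ (2 * s + 2) + M ^ 2 * τ := by
    have : ∀ a ∈ T, ∑ b ∈ T, ((if a = b then B ^ (2 * s + 2) else 0) + τ) =
        B ^ (2 * s + 2) + M * τ := by
      intro a ha
      rw [Finset.sum_add_distrib, Finset.sum_ite_eq, if_pos ha, Finset.sum_const, hT,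
        nsmul_eq_mul]
    rw [Finset.sum_congr rfl this, Finset.sum_const, hT, nsmul_eq_mul]
    ring
  rw [hT] at hvdc
  set I : ℝ := ∫ x, |theta ν S φ q n x| ∂μ with hI
  have hI0 : 0 ≤ I := integral_nonneg fun x => abs_nonneg _
  rw [Real.dist_eq, sub_zero, abs_of_nonneg hI0]
  have h1 : ((M : ℝ) * I) ^ 2 ≤ B ^ 2 * (M * B ^ (2 * s + 2) + M ^ 2 * τ) := by
    refine hvdc.trans (mul_le_mul_of_nonneg_left ?_ (sq_nonneg _))
    rw [← hsum2]
    exact hsum
  have h2 : B ^ 2 * (M ^ 2 * τ) = M ^ 2 * (ε ^ 2 / 4) := by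
    rw [hτ]
    have := (hBp 2).ne'
    field_simp
  have h3 : B ^ 2 * (M * B ^ (2 * s + 2)) < M ^ 2 * (ε ^ 2 / 4) := by
    rw [div_lt_iff₀ (by positivity)] at hM
    have h4 : B ^ 2 * (M * B ^ (2 * s + 2)) = M * B ^ (2 * s + 4) := by ring
    rw [h4]
    have h5 : (M : ℝ) ^ 2 * (ε ^ 2 / 4) = M * (M * ε ^ 2 / 4) := by ring
    rw [h5]
    refine mul_lt_mul_of_pos_left ?_ hM0
    linarith
  have h6 : ((M : ℝ) * I) ^ 2 < (M * ε) ^ 2 := by
    have : ((M : ℝ) * ε) ^ 2 = M ^ 2 * ε ^ 2 := by ring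
    rw [this]
    have h7 : 0 < (M : ℝ) ^ 2 * ε ^ 2 := by positivity
    nlinarith
  have h8 := lt_of_pow_lt_pow_left₀ 2 (by positivity) h6
  exact lt_of_mul_lt_mul_left h8 hM0.le

theorem dec_zero (μ : Measure X) [IsProbabilityMeasure μ] (ν : Measure Y)
    [IsProbabilityMeasure ν] (S : X → X) (φ : X → G) : Dec μ ν S φ 0 := by
  intro q _ B _
  have : ∀ n : Fin 0 → ℕ, ∫ x, |theta ν S φ q n x - ∏ i, ∫ y, q i y ∂ν| ∂μ = 0 := by
    intro n
    simp [theta]
  simp only [this]
  exact tendsto_const_nhds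

theorem dec_one (μ : Measure X) [IsProbabilityMeasure μ] (ν : Measure Y)
    [IsProbabilityMeasure ν] (hU : ∀ g : G, MeasurePreserving (fun y : Y => g • y) ν ν)
    (S : X → X) (φ : X → G) : Dec μ ν S φ 1 := by
  intro q hq B _
  have : ∀ n : Fin 1 → ℕ, ∫ x, |theta ν S φ q n x - ∏ i, ∫ y, q i y ∂ν| ∂μ = 0 := by
    intro n
    have h1 : ∀ x, theta ν S φ q n x = ∏ i, ∫ y, q i y ∂ν := by
      intro x
      rw [theta]
      simp only [Fin.prod_univ_one]
      exact int_comp ν _ (hU (coc S φ (n 0) x)) (q 0) (hq 0)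
    simp [h1]
  simp only [this]
  exact tendsto_const_nhds

theorem dec_step (μ : Measure X) [IsProbabilityMeasure μ] (ν : Measure Y)
    [IsProbabilityMeasure ν]
    (hU : ∀ g : G, MeasurePreserving (fun y : Y => g • y) ν ν) (hmixU : MixAct G ν) (S : X → X)
    (hS : MeasurePreserving S μ μ) (hmix : MixOrd μ S 1) (φ : X → G)
    (hφ : ∀ g, MeasurableSet {x | φ x = g}) (hdisp : Disp μ S φ) {s : ℕ}
    (hdec : Dec μ ν S φ (s + 1)) : Dec μ ν S φ (s + 2) := by
  intro q hq B hB
  have hUm : ∀ g : G, Measurable fun y : Y => g • y := fun g => (hU g).measurable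
  set m : ℝ := ∫ y, q 0 y ∂ν with hm
  set q' : Fin (s + 2) → Y → ℝ := Fin.cons (fun y => q 0 y - m) (fun i => q i.succ) with hq'
  have hq'0 : q' 0 = fun y => q 0 y - m := rfl
  have hq's : ∀ i : Fin (s + 1), q' i.succ = q i.succ := fun i => rfl
  have hq'm : ∀ i, Measurable (q' i) := by
    intro i
    refine Fin.cases ?_ (fun j => ?_) i
    · rw [hq'0]
      exact (hq 0).sub_const m
    · rw [hq's]
      exact hq _
  have hm_le : |m| ≤ B := int_abs_le ν _ _ (hB 0)
  have hB0 : 0 ≤ B := (abs_nonneg _).trans hm_le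
  have hq'b : ∀ i y, |q' i y| ≤ 2 * B + 1 := by
    intro i y
    refine Fin.cases ?_ (fun j => ?_) i
    · rw [hq'0]
      simp only
      refine (abs_sub _ _).trans ?_
      have := hB 0 y
      linarith
    · rw [hq's]
      have := hB j.succ y
      linarith
  have hqi : ∀ i, Integrable (q i) ν := fun i =>
    Integrable.of_bound (hq i).aestronglyMeasurable B
      (ae_of_all _ fun y => by rw [Real.norm_eq_abs]; exact hB i y)
  have hmz : ∫ y, q' 0 y ∂ν = 0 := by
    rw [hq'0]
    have : ∫ y, (q 0 y - m) ∂ν = ∫ y, q 0 y ∂ν - ∫ _y, m ∂ν :=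
      integral_sub (hqi 0) (integrable_const _)
    rw [this, integral_const, probReal_univ, one_smul, ← hm, sub_self]
  have h1 := mean_zero μ ν hU hmixU S hS hmix φ hφ hdisp hdec q' hq'm (2 * B + 1) (by linarith)
    hq'b hmz
  have h2 := (hdec (fun i => q i.succ) (fun i => hq _) B (fun i => hB _)).comp
    (tendsto_succAbove (s + 1) 0)
  have h3 : Tendsto (fun n : Fin (s + 2) → ℕ => ∫ x, |theta ν S φ q' n x| ∂μ +
      |m| * ∫ x, |theta ν S φ (fun i => q i.succ) (fun i => n i.succ) x -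
        ∏ i : Fin (s + 1), ∫ y, q i.succ y ∂ν| ∂μ) (gapF (s + 2)) (𝓝 0) := by
    have := h1.add (h2.const_mul |m|)
    rw [mul_zero, add_zero] at this
    exact this
  refine squeeze_zero (fun n => integral_nonneg fun x => abs_nonneg _) (fun n => ?_) h3
  have i1 : Integrable (fun x => |theta ν S φ q' n x|) μ :=
    Integrable.of_bound (theta_meas ν hUm S hS.measurable φ hφ q' hq'm
      n).abs.aestronglyMeasurable ((2 * B + 1) ^ (s + 2)) (ae_of_all _ fun x => by
        rw [Real.norm_eq_abs, abs_abs]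
        exact theta_le ν S φ q' _ hq'b n x)
  have i2 : Integrable (fun x => |theta ν S φ (fun i => q i.succ) (fun i => n i.succ) x -
        ∏ i : Fin (s + 1), ∫ y, q i.succ y ∂ν|) μ := by
    refine Integrable.of_bound ((theta_meas ν hUm S hS.measurable φ hφ (fun i => q i.succ)
      (fun i => hq _) (fun i => n i.succ)).sub measurable_const).abs.aestronglyMeasurable
      (B ^ (s + 1) + B ^ (s + 1)) (ae_of_all _ fun x => ?_)
    rw [Real.norm_eq_abs, abs_abs]
    refine (abs_sub _ _).trans (add_le_add ?_ ?_)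
    · exact theta_le ν S φ (fun i => q i.succ) B (fun i => hB _) _ x
    · have := abs_prod_le Finset.univ (fun i : Fin (s + 1) => ∫ y, q i.succ y ∂ν) B
        (fun i => int_abs_le ν _ _ (hB _))
      simpa using this
  rw [← integral_const_mul, ← integral_add i1 (i2.const_mul _)]
  refine integral_mono ?_ (i1.add (i2.const_mul _)) fun x => ?_
  · refine Integrable.of_bound ((theta_meas ν hUm S hS.measurable φ hφ q
      hq n).sub measurable_const).abs.aestronglyMeasurable
      (B ^ (s + 2) + B ^ (s + 2)) (ae_of_all _ fun x => ?_)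
    rw [Real.norm_eq_abs, abs_abs]
    refine (abs_sub _ _).trans (add_le_add ?_ ?_)
    · exact theta_le ν S φ q B hB _ x
    · have := abs_prod_le Finset.univ (fun i : Fin (s + 2) => ∫ y, q i y ∂ν) B
        (fun i => int_abs_le ν _ _ (hB _))
      simpa using this
  · show |theta ν S φ q n x - ∏ i, ∫ y, q i y ∂ν| ≤ |theta ν S φ q' n x| +
      |m| * |theta ν S φ (fun i => q i.succ) (fun i => n i.succ) x -
        ∏ i : Fin (s + 1), ∫ y, q i.succ y ∂ν|
    have e : theta ν S φ q n x = theta ν S φ q' n x +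
        m * theta ν S φ (fun i => q i.succ) (fun i => n i.succ) x := by
      rw [theta, theta, theta, ← integral_const_mul, ← integral_add]
      · congr 1
        funext y
        rw [Fin.prod_univ_succ (fun i => q i (coc S φ (n i) x • y)),
          Fin.prod_univ_succ (fun i => q' i (coc S φ (n i) x • y)), hq'0]
        simp only [hq's]
        ring
      · exact Integrable.of_bound (Finset.measurable_prod _ fun i _ =>
          (hq'm i).comp (hUm _)).aestronglyMeasurable ((2 * B + 1) ^ (s + 2))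
          (ae_of_all _ fun y => by
            rw [Real.norm_eq_abs]
            have := abs_prod_le Finset.univ (fun i : Fin (s + 2) =>
              q' i (coc S φ (n i) x • y)) (2 * B + 1) (fun i => hq'b _ _)
            simpa using this)
      · refine Integrable.const_mul ?_ _
        exact Integrable.of_bound (Finset.measurable_prod _ fun i _ =>
          (hq _).comp (hUm _)).aestronglyMeasurable (B ^ (s + 1))
          (ae_of_all _ fun y => by
            rw [Real.norm_eq_abs]
            have := abs_prod_le Finset.univ (fun i : Fin (s + 1) =>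
              q i.succ (coc S φ (n i.succ) x • y)) B (fun i => hB _ _)
            simpa using this)
    have e2 : ∏ i, ∫ y, q i y ∂ν = m * ∏ i : Fin (s + 1), ∫ y, q i.succ y ∂ν := by
      rw [Fin.prod_univ_succ]
    rw [e, e2]
    have e3 : theta ν S φ q' n x +
        m * theta ν S φ (fun i => q i.succ) (fun i => n i.succ) x -
        m * ∏ i : Fin (s + 1), ∫ y, q i.succ y ∂ν = theta ν S φ q' n x +
        m * (theta ν S φ (fun i => q i.succ) (fun i => n i.succ) x -
        ∏ i : Fin (s + 1), ∫ y, q i.succ y ∂ν) := by ring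
    rw [e3]
    refine (abs_add_le _ _).trans ?_
    rw [abs_mul]

theorem dec_all (μ : Measure X) [IsProbabilityMeasure μ] (ν : Measure Y)
    [IsProbabilityMeasure ν]
    (hU : ∀ g : G, MeasurePreserving (fun y : Y => g • y) ν ν) (hmixU : MixAct G ν) (S : X → X)
    (hS : MeasurePreserving S μ μ) (hmix : MixOrd μ S 1) (φ : X → G)
    (hφ : ∀ g, MeasurableSet {x | φ x = g}) (hdisp : Disp μ S φ) (r : ℕ) :
    Dec μ ν S φ r := by
  rcases r with _ | r
  · exact dec_zero μ ν S φ
  · induction r with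
    | zero => exact dec_one μ ν hU S φ
    | succ r ih => exact dec_step μ ν hU hmixU S hS hmix φ hφ hdisp ih

end Pool.Agent.TH294.RK
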