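import Pool.Agent.TH294.RK.MixT
import Pool.Agent.H567R2.MMF.MF
import Pool.Agent.H567R2.MMF.CL

/-!
# Cocycles cohomologous to a constant modulo a finite subgroup
-/

set_option autoImplicit false
set_option linter.unusedSectionVars false

namespace Pool.Agent.TH294.RK

open MeasureTheory Filter Topology H567MM

/-- mixing of multiplicity `k` for bounded real functions -/
theorem mix_fun_real {Z : Type*} [MeasurableSpace Z] (P : Measure Z) [IsProbabilityMeasure P]
    (T : Z → Z) (hT : MeasurePreserving T P P) (k : ℕ) (h : MixOrd P T k)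
    (f : Fin (k + 1) → Z → ℝ) (hf : ∀ j, Measurable (f j)) (b : ℝ) (hb : ∀ j z, |f j z| ≤ b) :
    Tendsto (fun n : Fin (k + 1) → ℕ => ∫ z, ∏ j, f j (T^[n j] z) ∂P) (gapF (k + 1))
      (𝓝 (∏ j, ∫ z, f j z ∂P)) := by
  rw [Metric.tendsto_nhds]
  intro ε hε
  obtain ⟨G, hG⟩ := mix_fun P T hT k h (fun j z => ((f j z : ℝ) : ℂ))
    (fun j => Complex.measurable_ofReal.comp (hf j)) b
    (fun j z => by rw [Complex.norm_real, Real.norm_eq_abs]; exact hb j z) ε hε
  rw [eventually_gapF]
  refine ⟨G, fun n hn => ?_⟩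
  have h0 : ∀ j, n 0 ≤ n j := by
    intro j
    rcases (Fin.zero_le j).eq_or_lt with h | h
    · rw [h]
    · exact (Nat.le_add_right _ _).trans (hn 0 j h)
  have h1 := hG (fun j => n j - n 0) (by simp) (fun j => by
    have := succ_of_gaps G n hn j
    have := h0 j.castSucc
    omega)
  have e1 : ∫ z, ∏ j, f j (T^[n j] z) ∂P = ∫ z, ∏ j, f j (T^[n j - n 0] z) ∂P := by
    rw [← int_comp P T^[n 0] (hT.iterate _) (fun z => ∏ j, f j (T^[n j - n 0] z))
      (Finset.measurable_prod _ fun j _ => (hf j).comp (hT.iterate _).measurable)]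
    congr 1
    funext z
    refine Finset.prod_congr rfl fun j _ => ?_
    rw [← Function.iterate_add_apply, Nat.sub_add_cancel (h0 j)]
  rw [e1, Real.dist_eq]
  have e2 : ∫ z, ∏ j, ((f j (T^[n j - n 0] z) : ℝ) : ℂ) ∂P =
      ((∫ z, ∏ j, f j (T^[n j - n 0] z) ∂P : ℝ) : ℂ) := by
    rw [← integral_complex_ofReal]
    congr 1
    funext z
    rw [Complex.ofReal_prod]
  have e3 : ∏ j, ∫ z, ((f j z : ℝ) : ℂ) ∂P = ((∏ j, ∫ z, f j z ∂P : ℝ) : ℂ) := by
    rw [Complex.ofReal_prod]
    refine Finset.prod_congr rfl fun j _ => ?_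
    exact integral_complex_ofReal
  rw [e2, e3, ← Complex.ofReal_sub, Complex.norm_real, Real.norm_eq_abs] at h1
  exact h1

variable {X Y G : Type*} [MeasurableSpace X] [MeasurableSpace Y] [CommGroup G] [Countable G]
  [MulAction G Y]

theorem coc_form (μ : Measure X) [IsProbabilityMeasure μ] (S : X → X)
    (hS : MeasurePreserving S μ μ) (φ : X → G) (H : Subgroup G) (v : G) (b : X → G)
    (h : ∀ᵐ x ∂μ, ∃ t ∈ H, φ x = v * (b (S x) / b x) * t) :
    ∀ᵐ x ∂μ, ∀ n, ∃ t ∈ H, coc S φ n x = v ^ n * (b (S^[n] x) / b x) * t := by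
  have h1 : ∀ᵐ x ∂μ, ∀ n, ∃ t ∈ H, φ (S^[n] x) = v * (b (S (S^[n] x)) / b (S^[n] x)) * t :=
    ae_all_iff.mpr (fun n => (hS.iterate n).quasiMeasurePreserving.ae h)
  filter_upwards [h1] with x hx n
  induction n with
  | zero => exact ⟨1, H.one_mem, by simp [coc]⟩
  | succ n ih =>
    obtain ⟨t, ht, e⟩ := ih
    obtain ⟨t', ht', e'⟩ := hx n
    refine ⟨t * t', H.mul_mem ht ht', ?_⟩
    rw [coc, e, e', Function.iterate_succ_apply', pow_succ]
    have e2 : b (S^[n] x) / b x * (b (S (S^[n] x)) / b (S^[n] x)) = b (S (S^[n] x)) / b x := by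
      rw [mul_comm, div_mul_div_cancel]
    calc v ^ n * (b (S^[n] x) / b x) * t * (v * (b (S (S^[n] x)) / b (S^[n] x)) * t')
        = v ^ n * v * (b (S^[n] x) / b x * (b (S (S^[n] x)) / b (S^[n] x))) * (t * t') := by
          simp only [mul_comm, mul_left_comm, mul_assoc]
      _ = _ := by rw [e2]

theorem smul_iter (g : G) (n : ℕ) : (fun y : Y => g • y)^[n] = fun y => g ^ n • y := by
  funext y
  exact smul_iterate_apply g n y

/-- the degenerate case -/
theorem dec_deg (μ : Measure X) [IsProbabilityMeasure μ] (ν : Measure Y)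
    [IsProbabilityMeasure ν] (hU : ∀ g : G, MeasurePreserving (fun y : Y => g • y) ν ν)
    (S : X → X) (hS : MeasurePreserving S μ μ) (φ : X → G)
    (hφ : ∀ g, MeasurableSet {x | φ x = g}) (H : Subgroup G) [Finite H] (v : G) (b : X → G)
    (hbm : ∀ g, MeasurableSet {x | b x = g})
    (h : ∀ᵐ x ∂μ, ∃ t ∈ H, φ x = v * (b (S x) / b x) * t) (k : ℕ)
    (hv : MixOrd ν (fun y : Y => v • y) k) : Dec μ ν S φ (k + 1) := by
  classical
  intro q hq B hB
  have hUm : ∀ g : G, Measurable fun y : Y => g • y := fun g => (hU g).measurable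
  have hne : Nonempty Y := by
    by_contra hX
    rw [not_nonempty_iff] at hX
    have := measure_univ (μ := ν)
    rw [Set.univ_eq_empty_iff.2 hX, measure_empty] at this
    exact zero_ne_one this
  have hB0 : 0 ≤ B := (abs_nonneg _).trans (hB 0 (Classical.arbitrary Y))
  have hform := coc_form μ S hS φ H v b h
  rw [Metric.tendsto_nhds]
  intro ε hε
  -- window
  set e : ℝ := ε / (4 * (B ^ (k + 1) + 1) * ((k : ℝ) + 1)) with he
  have he0 : 0 < e := by positivity
  obtain ⟨W₀, hW₀⟩ := CL_aux_finset μ b hbm e he0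
  have hHfin : (H : Set G).Finite := Set.toFinite _
  set W : Finset G := (W₀ ×ˢ hHfin.toFinset).image (fun p => p.1 * p.2) with hW
  have hWm : MeasurableSet {x | b x ∉ W₀} := by
    have : {x | b x ∉ W₀} = (⋃ g ∈ W₀, {x | b x = g})ᶜ := by
      ext x
      simp
    rw [this]
    exact (Finset.measurableSet_biUnion _ fun g _ => hbm g).compl
  set bad : (Fin (k + 1) → ℕ) → Set X := fun n => ⋃ i, S^[n i] ⁻¹' {x | b x ∉ W₀} with hbad
  have hbadm : ∀ n, MeasurableSet (bad n) := fun n => MeasurableSet.iUnion fun i =>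
    (hS.iterate _).measurable hWm
  have hbadμ : ∀ n, μ.real (bad n) ≤ ((k : ℝ) + 1) * e := by
    intro n
    have h1 : μ.real (bad n) ≤ ∑ i : Fin (k + 1), μ.real (S^[n i] ⁻¹' {x | b x ∉ W₀}) :=
      measureReal_iUnion_fintype_le _
    refine h1.trans ((Finset.sum_le_card_nsmul _ _ e fun i _ => ?_).trans ?_)
    · rw [(hS.iterate _).measureReal_preimage hWm.nullMeasurableSet]
      exact hW₀.le
    · rw [Finset.card_univ, Fintype.card_fin, nsmul_eq_mul]
      push_cast
      exact le_rfl
  -- the tuples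
  set TW : Finset (Fin (k + 1) → G) := Fintype.piFinset fun _ => W with hTW
  set I : (Fin (k + 1) → G) → (Fin (k + 1) → ℕ) → ℝ := fun g n =>
    ∫ y, ∏ i, q i (g i • (v ^ (n i) • y)) ∂ν with hI
  set c : ℝ := ∏ i, ∫ y, q i y ∂ν with hc
  have hIlim : ∀ g, Tendsto (I g) (gapF (k + 1)) (𝓝 c) := by
    intro g
    have h1 := mix_fun_real ν (fun y : Y => v • y) (hU v) k hv (fun i y => q i (g i • y))
      (fun i => (hq i).comp (hUm _)) B (fun i y => hB _ _)
    have h2 : ∏ i, ∫ y, q i (g i • y) ∂ν = c :=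
      Finset.prod_congr rfl fun i _ => int_comp ν _ (hU (g i)) (q i) (hq i)
    rw [h2] at h1
    simp only [smul_iter] at h1
    exact h1
  have hsum : Tendsto (fun n => ∑ g ∈ TW, |I g n - c|) (gapF (k + 1)) (𝓝 0) := by
    have : (0 : ℝ) = ∑ g ∈ TW, 0 := by simp
    rw [this]
    refine tendsto_finsetSum _ fun g _ => ?_
    have h3 := ((hIlim g).sub_const c).abs
    rw [sub_self, abs_zero] at h3
    exact h3
  have hev := Metric.tendsto_nhds.1 hsum (ε / 2) (by positivity)
  filter_upwards [hev] with n hn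
  rw [Real.dist_eq, sub_zero] at hn
  have hn' := lt_of_le_of_lt (le_abs_self _) hn
  have hint0 : 0 ≤ ∫ x, |theta ν S φ q n x - c| ∂μ := integral_nonneg fun x => abs_nonneg _
  rw [Real.dist_eq, sub_zero, abs_of_nonneg hint0]
  have hcb : |c| ≤ B ^ (k + 1) := by
    have := abs_prod_le Finset.univ (fun i : Fin (k + 1) => ∫ y, q i y ∂ν) B
      (fun i => int_abs_le ν _ _ (hB _))
    simpa using this
  have hθb := fun x => theta_le ν S φ q B hB n x
  have hpt : ∀ᵐ x ∂μ, |theta ν S φ q n x - c| ≤ ∑ g ∈ TW, |I g n - c| +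
      2 * B ^ (k + 1) * (bad n).indicator (fun _ => (1 : ℝ)) x := by
    filter_upwards [hform] with x hx
    have hs0 : 0 ≤ ∑ g ∈ TW, |I g n - c| := Finset.sum_nonneg fun _ _ => abs_nonneg _
    by_cases hxb : x ∈ bad n
    · rw [Set.indicator_of_mem hxb, mul_one]
      have := abs_sub (theta ν S φ q n x) c
      have := hθb x
      linarith
    · rw [Set.indicator_of_notMem hxb, mul_zero, add_zero]
      choose t ht1 ht2 using hx
      set g : Fin (k + 1) → G := fun i => b (S^[n i] x) * t (n i) with hg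
      have hgW : g ∈ TW := by
        rw [hTW, Fintype.mem_piFinset]
        intro i
        rw [hW, Finset.mem_image]
        refine ⟨(b (S^[n i] x), t (n i)), Finset.mem_product.2 ⟨?_, ?_⟩, rfl⟩
        · by_contra hcon
          exact hxb (Set.mem_iUnion.2 ⟨i, hcon⟩)
        · exact hHfin.mem_toFinset.2 (ht1 _)
      have h1 : theta ν S φ q n x = I g n := by
        have hm : Measurable fun y : Y => ∏ i, q i (coc S φ (n i) x • y) :=
          Finset.measurable_prod _ fun i _ => (hq i).comp (hUm _)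
        rw [theta, hI]
        simp only
        rw [← int_comp ν _ (hU (b x)) _ hm]
        congr 1
        funext y
        refine Finset.prod_congr rfl fun i _ => ?_
        rw [ht2 (n i), smul_smul, smul_smul]
        congr 2
        calc v ^ n i * (b (S^[n i] x) / b x) * t (n i) * b x
            = v ^ n i * (b (S^[n i] x) / b x * b x) * t (n i) := by
              simp only [mul_comm, mul_left_comm, mul_assoc]
          _ = b (S^[n i] x) * t (n i) * v ^ n i := by
              rw [div_mul_cancel]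
              simp only [mul_comm, mul_left_comm, mul_assoc]
      rw [h1]
      exact Finset.single_le_sum (f := fun g => |I g n - c|) (fun _ _ => abs_nonneg _) hgW
  have i1 : Integrable (fun x => |theta ν S φ q n x - c|) μ := by
    refine (Integrable.sub ?_ (integrable_const c)).abs
    exact Integrable.of_bound (theta_meas ν hUm S hS.measurable φ hφ q hq
      n).aestronglyMeasurable (B ^ (k + 1))
      (ae_of_all _ fun x => by rw [Real.norm_eq_abs]; exact hθb x)
  have i2 : Integrable (fun x => 2 * B ^ (k + 1) * (bad n).indicator (fun _ => (1 : ℝ)) x) μ :=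
    ((integrable_const _).indicator (hbadm n)).const_mul _
  have h5 := integral_mono_ae i1 ((integrable_const _).add i2) hpt
  have h6 : ∫ x, (∑ g ∈ TW, |I g n - c| +
      2 * B ^ (k + 1) * (bad n).indicator (fun _ => (1 : ℝ)) x) ∂μ =
      ∑ g ∈ TW, |I g n - c| + 2 * B ^ (k + 1) * μ.real (bad n) := by
    rw [integral_add (integrable_const _) i2, integral_const, probReal_univ, one_smul,
      integral_const_mul, integral_indicator_const _ (hbadm n)]
    simp
  simp only [Pi.add_apply] at h5
  rw [h6] at h5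
  refine h5.trans_lt ?_
  have h7 : 2 * B ^ (k + 1) * μ.real (bad n) ≤ ε / 2 := by
    have h8 : 2 * B ^ (k + 1) * μ.real (bad n) ≤
        2 * (B ^ (k + 1) + 1) * (((k : ℝ) + 1) * e) := by
      refine mul_le_mul ?_ (hbadμ n) measureReal_nonneg (by positivity)
      linarith
    refine h8.trans (le_of_eq ?_)
    rw [he]
    have h9 : (B ^ (k + 1) + 1) ≠ 0 := by positivity
    have h10 : ((k : ℝ) + 1) ≠ 0 := by positivity
    field_simp
    ring
  linarith

end Pool.Agent.TH294.RK
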