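import Pool.Agent.TH294.RK.VdC

/-!
# Mixing for bounded functions
-/

set_option autoImplicit false
set_option linter.unusedSectionVars false

namespace Pool.Agent.TH294.RK

open MeasureTheory Filter Topology H567MM

/-- uniform approximation of a bounded measurable function by a simple function -/
theorem approx_simple {Y : Type*} [MeasurableSpace Y] (f : Y → ℝ) (hf : Measurable f) (B : ℝ)
    (hB : ∀ y, |f y| ≤ B) (η : ℝ) (hη : 0 < η) :
    ∃ (J : Finset ℤ) (A : ℤ → Set Y) (c : ℤ → ℝ), (∀ j, MeasurableSet (A j)) ∧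
      ∀ y, |f y - ∑ j ∈ J, c j * (A j).indicator (fun _ => (1 : ℝ)) y| ≤ η := by
  classical
  refine ⟨Finset.Icc (-⌈B / η⌉ - 1) (⌈B / η⌉ + 1), fun j => {y | ⌊f y / η⌋ = j},
    fun j => η * j, fun j => ?_, fun y => ?_⟩
  · exact (Int.measurable_floor.comp (hf.div_const η)) (measurableSet_singleton j)
  · have h1 : |f y / η| ≤ B / η := by
      rw [abs_div, abs_of_pos hη]
      exact div_le_div_of_nonneg_right (hB y) hη.le
    have h2 := abs_le.1 h1
    have h3 : (B / η : ℝ) ≤ ⌈B / η⌉ := Int.le_ceil _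
    have hmem : ⌊f y / η⌋ ∈ Finset.Icc (-⌈B / η⌉ - 1) (⌈B / η⌉ + 1) := by
      rw [Finset.mem_Icc]
      constructor
      · rw [Int.le_floor]
        push_cast
        linarith
      · have h4 : (⌊f y / η⌋ : ℝ) ≤ f y / η := Int.floor_le _
        have h5 : (⌊f y / η⌋ : ℝ) ≤ ((⌈B / η⌉ + 1 : ℤ) : ℝ) := by
          push_cast
          linarith
        exact_mod_cast h5
    rw [Finset.sum_eq_single_of_mem _ hmem]
    · rw [Set.indicator_of_mem (by rfl), mul_one]
      have h4 : (⌊f y / η⌋ : ℝ) ≤ f y / η := Int.floor_le _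
      have h5 : f y / η < ⌊f y / η⌋ + 1 := Int.lt_floor_add_one _
      have h6 : f y = η * (f y / η) := by field_simp
      rw [abs_le]
      constructor
      · nlinarith
      · nlinarith
    · intro j _ hj
      rw [Set.indicator_of_notMem, mul_zero]
      intro h
      exact hj h.symm

theorem fun_mix {Y ι : Type*} [MeasurableSpace Y] (ν : Measure Y) [IsProbabilityMeasure ν]
    (L : Filter ι) (R : ι → Y → Y) (hR : ∀ i, MeasurePreserving (R i) ν ν)
    (h : ∀ A B : Set Y, MeasurableSet A → MeasurableSet B →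
      Tendsto (fun i => ν.real (A ∩ R i ⁻¹' B)) L (𝓝 (ν.real A * ν.real B)))
    (f g : Y → ℝ) (hf : Measurable f) (hg : Measurable g) (B : ℝ) (hfB : ∀ y, |f y| ≤ B)
    (hgB : ∀ y, |g y| ≤ B) :
    Tendsto (fun i => ∫ y, f y * g (R i y) ∂ν) L (𝓝 ((∫ y, f y ∂ν) * ∫ y, g y ∂ν)) := by
  classical
  have hne : Nonempty Y := by
    by_contra hX
    rw [not_nonempty_iff] at hX
    have := measure_univ (μ := ν)
    rw [Set.univ_eq_empty_iff.2 hX, measure_empty] at this
    exact zero_ne_one this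
  have hB0 : 0 ≤ B := (abs_nonneg _).trans (hfB (Classical.arbitrary Y))
  rw [Metric.tendsto_nhds]
  intro ε hε
  set η : ℝ := min 1 (ε / (6 * (B + 1))) with hη
  have hη0 : 0 < η := lt_min one_pos (by positivity)
  have hη1 : η ≤ 1 := min_le_left _ _
  have hη2 : 6 * ((B + 1) * η) ≤ ε := by
    have : η ≤ ε / (6 * (B + 1)) := min_le_right _ _
    rw [le_div_iff₀ (by positivity)] at this
    linarith
  obtain ⟨J, A, c, hA, hfA⟩ := approx_simple f hf B hfB η hη0
  obtain ⟨J', A', c', hA', hgA⟩ := approx_simple g hg B hgB η hη0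
  set f1 : Y → ℝ := fun y => ∑ j ∈ J, c j * (A j).indicator (fun _ => (1 : ℝ)) y with hf1
  set g1 : Y → ℝ := fun y => ∑ j ∈ J', c' j * (A' j).indicator (fun _ => (1 : ℝ)) y with hg1
  have hf1m : Measurable f1 := Finset.measurable_sum _ fun j _ =>
    (measurable_const.indicator (hA j)).const_mul _
  have hg1m : Measurable g1 := Finset.measurable_sum _ fun j _ =>
    (measurable_const.indicator (hA' j)).const_mul _
  have hf1b : ∀ y, |f1 y| ≤ B + 1 := by
    intro y
    have h1 := hfA y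
    have h2 := hfB y
    have : f1 y = f y - (f y - f1 y) := by ring
    rw [this]
    refine (abs_sub _ _).trans ?_
    have h3 : |f y - f1 y| ≤ η := h1
    linarith
  have hg1b : ∀ y, |g1 y| ≤ B + 1 := by
    intro y
    have h1 := hgA y
    have h2 := hgB y
    have : g1 y = g y - (g y - g1 y) := by ring
    rw [this]
    refine (abs_sub _ _).trans ?_
    have h3 : |g y - g1 y| ≤ η := h1
    linarith
  -- convergence for the simple functions
  have hlim : Tendsto (fun i => ∫ y, f1 y * g1 (R i y) ∂ν) L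
      (𝓝 ((∫ y, f1 y ∂ν) * ∫ y, g1 y ∂ν)) := by
    have hI : ∀ E : Set Y, MeasurableSet E → ∫ y, E.indicator (fun _ => (1 : ℝ)) y ∂ν = ν.real E := by
      intro E hE
      rw [integral_indicator_const _ hE]
      simp
    have hii : ∀ E : Set Y, MeasurableSet E → Integrable (E.indicator (fun _ => (1 : ℝ))) ν :=
      fun E hE => (integrable_const _).indicator hE
    have e1 : ∫ y, f1 y ∂ν = ∑ j ∈ J, c j * ν.real (A j) := by
      rw [hf1, integral_finsetSum _ fun j _ => (hii _ (hA j)).const_mul _]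
      refine Finset.sum_congr rfl fun j _ => ?_
      rw [integral_const_mul, hI _ (hA j)]
    have e2 : ∫ y, g1 y ∂ν = ∑ j ∈ J', c' j * ν.real (A' j) := by
      rw [hg1, integral_finsetSum _ fun j _ => (hii _ (hA' j)).const_mul _]
      refine Finset.sum_congr rfl fun j _ => ?_
      rw [integral_const_mul, hI _ (hA' j)]
    have e3 : ∀ i, ∫ y, f1 y * g1 (R i y) ∂ν =
        ∑ j ∈ J, ∑ j' ∈ J', c j * c' j' * ν.real (A j ∩ R i ⁻¹' A' j') := by
      intro i
      have e4 : ∀ y, f1 y * g1 (R i y) = ∑ j ∈ J, ∑ j' ∈ J', c j * c' j' *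
          (A j ∩ R i ⁻¹' A' j').indicator (fun _ => (1 : ℝ)) y := by
        intro y
        rw [hf1, hg1]
        simp only
        rw [Finset.sum_mul_sum]
        refine Finset.sum_congr rfl fun j _ => Finset.sum_congr rfl fun j' _ => ?_
        have : (A j ∩ R i ⁻¹' A' j').indicator (fun _ => (1 : ℝ)) y =
            (A j).indicator (fun _ => (1 : ℝ)) y * (A' j').indicator (fun _ => (1 : ℝ)) (R i y) := by
          by_cases h1 : y ∈ A j
          · by_cases h2 : R i y ∈ A' j'
            · have h12 : y ∈ A j ∩ R i ⁻¹' A' j' := Set.mem_inter h1 h2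
              rw [Set.indicator_of_mem h1, Set.indicator_of_mem h2,
                Set.indicator_of_mem h12, mul_one]
            · rw [Set.indicator_of_notMem h2, mul_zero, Set.indicator_of_notMem]
              exact fun h => h2 h.2
          · rw [Set.indicator_of_notMem h1, zero_mul, Set.indicator_of_notMem]
            exact fun h => h1 h.1
        rw [this]
        ring
      simp only [e4]
      have hm : ∀ j j', MeasurableSet (A j ∩ R i ⁻¹' A' j') := fun j j' =>
        (hA j).inter ((hR i).measurable (hA' j'))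
      rw [integral_finsetSum _ fun j _ => integrable_finsetSum _ fun j' _ =>
        (hii _ (hm j j')).const_mul _]
      refine Finset.sum_congr rfl fun j _ => ?_
      rw [integral_finsetSum _ fun j' _ => (hii _ (hm j j')).const_mul _]
      refine Finset.sum_congr rfl fun j' _ => ?_
      rw [integral_const_mul, hI _ (hm j j')]
    rw [e1, e2, Finset.sum_mul_sum]
    simp only [e3]
    refine tendsto_finsetSum _ fun j _ => tendsto_finsetSum _ fun j' _ => ?_
    have e5 : c j * ν.real (A j) * (c' j' * ν.real (A' j')) =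
        c j * c' j' * (ν.real (A j) * ν.real (A' j')) := by ring
    rw [e5]
    exact (h _ _ (hA j) (hA' j')).const_mul _
  have hlim' := Metric.tendsto_nhds.1 hlim (ε / 3) (by positivity)
  filter_upwards [hlim'] with i hi
  rw [Real.dist_eq] at hi ⊢
  have hRm := (hR i).measurable
  have d1 : |∫ y, f y * g (R i y) ∂ν - ∫ y, f1 y * g1 (R i y) ∂ν| ≤ 2 * (B + 1) * η := by
    rw [← integral_sub]
    · refine int_abs_le ν _ _ fun y => ?_
      have e : f y * g (R i y) - f1 y * g1 (R i y) =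
          (f y - f1 y) * g (R i y) + f1 y * (g (R i y) - g1 (R i y)) := by ring
      rw [e]
      refine (abs_add_le _ _).trans ?_
      rw [abs_mul, abs_mul]
      have a1 : |f y - f1 y| * |g (R i y)| ≤ η * (B + 1) :=
        mul_le_mul (hfA y) ((hgB _).trans (by linarith)) (abs_nonneg _) hη0.le
      have a2 : |f1 y| * |g (R i y) - g1 (R i y)| ≤ (B + 1) * η :=
        mul_le_mul (hf1b y) (hgA _) (abs_nonneg _) (by positivity)
      linarith
    · exact Integrable.of_bound (hf.mul (hg.comp hRm)).aestronglyMeasurable (B * B)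
        (ae_of_all _ fun y => by
          rw [Real.norm_eq_abs, abs_mul]
          exact mul_le_mul (hfB y) (hgB _) (abs_nonneg _) hB0)
    · exact Integrable.of_bound (hf1m.mul (hg1m.comp hRm)).aestronglyMeasurable
        ((B + 1) * (B + 1)) (ae_of_all _ fun y => by
          rw [Real.norm_eq_abs, abs_mul]
          exact mul_le_mul (hf1b y) (hg1b _) (abs_nonneg _) (by positivity))
  have d2 : ∀ (u u1 : Y → ℝ), Measurable u → Measurable u1 → (∀ y, |u y| ≤ B) →
      (∀ y, |u1 y| ≤ B + 1) → (∀ y, |u y - u1 y| ≤ η) → |∫ y, u y ∂ν - ∫ y, u1 y ∂ν| ≤ η := by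
    intro u u1 hu hu1 hub hu1b hd
    rw [← integral_sub]
    · exact int_abs_le ν _ _ hd
    · exact Integrable.of_bound hu.aestronglyMeasurable B
        (ae_of_all _ fun y => by rw [Real.norm_eq_abs]; exact hub y)
    · exact Integrable.of_bound hu1.aestronglyMeasurable (B + 1)
        (ae_of_all _ fun y => by rw [Real.norm_eq_abs]; exact hu1b y)
  have d3 := d2 f f1 hf hf1m hfB hf1b hfA
  have d4 := d2 g g1 hg hg1m hgB hg1b hgA
  have d5 : |∫ y, g y ∂ν| ≤ B + 1 := (int_abs_le ν g B hgB).trans (by linarith)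
  have d6 : |∫ y, f1 y ∂ν| ≤ B + 1 := int_abs_le ν f1 _ hf1b
  have d7 : |(∫ y, f1 y ∂ν) * (∫ y, g1 y ∂ν) - (∫ y, f y ∂ν) * ∫ y, g y ∂ν| ≤
      2 * (B + 1) * η := by
    have e : (∫ y, f1 y ∂ν) * (∫ y, g1 y ∂ν) - (∫ y, f y ∂ν) * ∫ y, g y ∂ν =
        -((∫ y, f1 y ∂ν) * (∫ y, g y ∂ν - ∫ y, g1 y ∂ν)) -
          (∫ y, f y ∂ν - ∫ y, f1 y ∂ν) * ∫ y, g y ∂ν := by ring
    rw [e]
    refine (abs_sub _ _).trans ?_
    rw [abs_neg, abs_mul, abs_mul]
    have a1 := mul_le_mul d6 d4 (abs_nonneg _) (by positivity : (0 : ℝ) ≤ B + 1)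
    have a2 := mul_le_mul d3 d5 (abs_nonneg _) hη0.le
    linarith
  have e : ∫ y, f y * g (R i y) ∂ν - (∫ y, f y ∂ν) * ∫ y, g y ∂ν =
      (∫ y, f y * g (R i y) ∂ν - ∫ y, f1 y * g1 (R i y) ∂ν) +
      (∫ y, f1 y * g1 (R i y) ∂ν - (∫ y, f1 y ∂ν) * ∫ y, g1 y ∂ν) +
      ((∫ y, f1 y ∂ν) * (∫ y, g1 y ∂ν) - (∫ y, f y ∂ν) * ∫ y, g y ∂ν) := by ring
  rw [e]
  refine (abs_add_three _ _ _).trans_lt ?_
  have : 0 < (B + 1) * η := by positivity
  linarith

end Pool.Agent.TH294.RK
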