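import Pool.Agent.TH294.RK.Deg
import Pool.Agent.TH294.RK.Cob

/-!
# The main theorem on skew products with a mixing abelian group action in the fibres
-/

set_option autoImplicit false
set_option linter.unusedSectionVars false

namespace Pool.Agent.TH294.RK

open MeasureTheory Filter Topology H567MM

variable {X Y G : Type*} [MeasurableSpace X] [MeasurableSpace Y] [CommGroup G] [Countable G]
  [MulAction G Y]

/-- a mixing action of an infinite group on a nontrivial space has arbitrarily small sets -/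
theorem small_sets (ν : Measure Y) [IsProbabilityMeasure ν]
    (hU : ∀ g : G, MeasurePreserving (fun y : Y => g • y) ν ν) (hmixU : MixAct G ν) [Infinite G]
    (B₀ : Set Y) (hB₀ : MeasurableSet B₀) (h0 : 0 < ν.real B₀) (h1 : ν.real B₀ < 1) (ε : ℝ)
    (hε : 0 < ε) : ∃ B : Set Y, MeasurableSet B ∧ 0 < ν.real B ∧ ν.real B < ε := by
  set β : ℝ := (1 + ν.real B₀) / 2 with hβ
  have hβ0 : 0 < β := by rw [hβ]; linarith
  have hβ1 : β < 1 := by rw [hβ]; linarith
  have hβ2 : ν.real B₀ < β := by rw [hβ]; linarith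
  have key : ∀ j : ℕ, ∃ B : Set Y, MeasurableSet B ∧ 0 < ν.real B ∧ ν.real B < β ∧
      ν.real B ≤ β ^ j := by
    intro j
    induction j with
    | zero => exact ⟨B₀, hB₀, h0, hβ2, by rw [pow_zero]; exact h1.le⟩
    | succ j ih =>
      obtain ⟨B, hB, hB0, hBβ, hBj⟩ := ih
      have h2 := hmixU B B hB hB
      have h3 : ν.real B * ν.real B < β * ν.real B := mul_lt_mul_of_pos_right hBβ hB0
      have h4 : 0 < ν.real B * ν.real B := mul_pos hB0 hB0
      obtain ⟨g, hg1, hg2⟩ := ((h2.eventually_lt_const h3).and (h2.eventually_const_lt h4)).exists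
      refine ⟨B ∩ (fun y => g • y) ⁻¹' B, hB.inter ((hU g).measurable hB), hg2, ?_, ?_⟩
      · exact (measureReal_mono Set.inter_subset_left).trans_lt hBβ
      · rw [pow_succ, mul_comm]
        exact hg1.le.trans (mul_le_mul_of_nonneg_left hBj hβ0.le)
  obtain ⟨j, hj⟩ := exists_pow_lt_of_lt_one hε hβ1
  obtain ⟨B, hB, hB0, _, hBj⟩ := key j
  exact ⟨B, hB, hB0, hBj.trans_lt hj⟩

/-- if the measure `ν` is trivial, everything is mixing -/
theorem nontriv (ν : Measure Y) [IsProbabilityMeasure ν] (T : Y → Y) (hT : MeasurePreserving T ν ν)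
    (k : ℕ) (h : ¬ MixOrd ν T k) : ∃ B : Set Y, MeasurableSet B ∧ 0 < ν.real B ∧ ν.real B < 1 := by
  by_contra hcon
  push Not at hcon
  apply h
  have h01 : ∀ B : Set Y, MeasurableSet B → ν.real B = 0 ∨ ν.real B = 1 := by
    intro B hB
    rcases (measureReal_nonneg (μ := ν) (s := B)).eq_or_lt with h0 | h0
    · exact Or.inl h0.symm
    · right
      have h1 := hcon B hB h0
      exact le_antisymm measureReal_le_one h1
  intro A hA ε hε
  refine ⟨0, fun n _ _ => ?_⟩
  have hm : ∀ j, MeasurableSet (T^[n j] ⁻¹' A j) := fun j => (hT.iterate _).measurable (hA j)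
  have he : ∀ j, ν.real (T^[n j] ⁻¹' A j) = ν.real (A j) := fun j =>
    (hT.iterate _).measureReal_preimage (hA j).nullMeasurableSet
  by_cases hall : ∀ j, ν.real (A j) = 1
  · have h1 : ν.real (⋂ j, T^[n j] ⁻¹' A j) = 1 := by
      have h2 : ν.real (⋂ j, T^[n j] ⁻¹' A j)ᶜ = 0 := by
        rw [Set.compl_iInter]
        refine le_antisymm ((measureReal_iUnion_fintype_le _).trans (le_of_eq ?_))
          measureReal_nonneg
        refine Finset.sum_eq_zero fun j _ => ?_
        rw [probReal_compl_eq_one_sub (hm j), he, hall, sub_self]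
      rw [probReal_compl_eq_one_sub (MeasurableSet.iInter hm)] at h2
      linarith
    rw [h1, Finset.prod_eq_one fun j _ => hall j, sub_self, abs_zero]
    exact hε
  · push Not at hall
    obtain ⟨j, hj⟩ := hall
    have h0 : ν.real (A j) = 0 := (h01 _ (hA j)).resolve_right hj
    have h1 : ν.real (⋂ j, T^[n j] ⁻¹' A j) = 0 := by
      refine le_antisymm ?_ measureReal_nonneg
      rw [← h0, ← he j]
      exact measureReal_mono (Set.iInter_subset _ j)
    rw [h1, Finset.prod_eq_zero (Finset.mem_univ j) h0, sub_self, abs_zero]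
    exact hε

/-- mixing of the skew product: the cocycle leaves every finite set -/
theorem escape (μ : Measure X) [IsProbabilityMeasure μ] (ν : Measure Y)
    [IsProbabilityMeasure ν] (hU : ∀ g : G, MeasurePreserving (fun y : Y => g • y) ν ν)
    (S : X → X) (hS : MeasurePreserving S μ μ) (φ : X → G)
    (hφ : ∀ g, MeasurableSet {x | φ x = g})
    (hsmall : ∀ ε : ℝ, 0 < ε → ∃ B : Set Y, MeasurableSet B ∧ 0 < ν.real B ∧ ν.real B < ε)
    (hT : MixOrd (μ.prod ν) (skewU (Y := Y) S φ) 1) (g : G) :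
    Tendsto (fun n => μ.real {x | coc S φ n x = g}) atTop (𝓝 0) := by
  rw [Metric.tendsto_atTop]
  intro ε hε
  obtain ⟨B, hB, hB0, hBε⟩ := hsmall (ε / 2) (by positivity)
  rw [MP_aux_iff] at hT
  have h1 := hT (Set.univ ×ˢ B) (Set.univ ×ˢ ((fun y => g⁻¹ • y) ⁻¹' B))
    (MeasurableSet.univ.prod hB) (MeasurableSet.univ.prod ((hU _).measurable hB))
  rw [measureReal_prod_prod, measureReal_prod_prod, probReal_univ, one_mul, one_mul,
    (hU g⁻¹).measureReal_preimage hB.nullMeasurableSet] at h1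
  obtain ⟨N, hN⟩ := Metric.tendsto_atTop.1 h1 (ε / 2 * ν.real B) (by positivity)
  refine ⟨N, fun n hn => ?_⟩
  have h2 := hN n hn
  rw [Real.dist_eq] at h2
  have h3 := (abs_lt.1 h2).2
  have hlv := coc_level S hS.measurable φ hφ n g
  have h4 : μ.real {x | coc S φ n x = g} * ν.real B ≤ (μ.prod ν).real
      (Set.univ ×ˢ B ∩ (skewU (Y := Y) S φ)^[n] ⁻¹'
        (Set.univ ×ˢ ((fun y => g⁻¹ • y) ⁻¹' B))) := by
    rw [← measureReal_prod_prod]
    refine measureReal_mono ?_
    rintro ⟨x, y⟩ ⟨hx, hy⟩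
    refine ⟨⟨Set.mem_univ _, hy⟩, ?_⟩
    rw [Set.mem_preimage, skewU_iterate]
    refine ⟨Set.mem_univ _, ?_⟩
    show g⁻¹ • (coc S φ n x • y) ∈ B
    have hx' : coc S φ n x = g := hx
    rw [hx', inv_smul_smul]
    exact hy
  have h5 : μ.real {x | coc S φ n x = g} * ν.real B < ε * ν.real B := by nlinarith
  rw [Real.dist_eq, sub_zero, abs_of_nonneg measureReal_nonneg]
  exact lt_of_mul_lt_mul_right h5 hB0.le

/-- the constant has infinite order -/
theorem inf_order (μ : Measure X) [IsProbabilityMeasure μ]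
    (S : X → X) (hS : MeasurePreserving S μ μ) (φ : X → G)
    (hφ : ∀ g, MeasurableSet {x | φ x = g}) (H : Subgroup G) [Finite H] (v : G) (b : X → G)
    (hbm : ∀ g, MeasurableSet {x | b x = g})
    (h : ∀ᵐ x ∂μ, ∃ t ∈ H, φ x = v * (b (S x) / b x) * t)
    (hesc : ∀ g : G, Tendsto (fun n => μ.real {x | coc S φ n x = g}) atTop (𝓝 0)) :
    ¬ IsOfFinOrder v := by
  classical
  intro hv
  obtain ⟨p, hp, hvp⟩ := isOfFinOrder_iff_pow_eq_one.1 hv
  have hform := coc_form μ S hS φ H v b h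
  obtain ⟨W₀, hW₀⟩ := CL_aux_finset μ b hbm (1 / 4) (by norm_num)
  have hHfin : (H : Set G).Finite := Set.toFinite _
  set W : Finset G := ((W₀ ×ˢ W₀) ×ˢ hHfin.toFinset).image (fun p => p.1.1 / p.1.2 * p.2) with hW
  have hWm : MeasurableSet {x | b x ∉ W₀} := by
    have : {x | b x ∉ W₀} = (⋃ g ∈ W₀, {x | b x = g})ᶜ := by
      ext x
      simp
    rw [this]
    exact (Finset.measurableSet_biUnion _ fun g _ => hbm g).compl
  have hsum : Tendsto (fun n => ∑ g ∈ W, μ.real {x | coc S φ n x = g}) atTop (𝓝 0) := by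
    have : (0 : ℝ) = ∑ g ∈ W, 0 := by simp
    rw [this]
    exact tendsto_finsetSum _ fun g _ => hesc g
  obtain ⟨N, hN⟩ := Metric.tendsto_atTop.1 hsum (1 / 2) (by norm_num)
  have h1 := hN (p * N) (Nat.le_mul_of_pos_left _ hp)
  rw [Real.dist_eq, sub_zero] at h1
  have h2 := (abs_lt.1 h1).2
  -- the cocycle lies in `W` with probability at least one half
  have h3 : μ.real (Set.univ : Set X) ≤ μ.real {x | b x ∉ W₀} +
      μ.real (S^[p * N] ⁻¹' {x | b x ∉ W₀}) + ∑ g ∈ W, μ.real {x | coc S φ (p * N) x = g} := by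
    have h4 : ∀ᵐ x ∂μ, x ∈ ({x | b x ∉ W₀} ∪ S^[p * N] ⁻¹' {x | b x ∉ W₀}) ∪
        ⋃ g ∈ W, {x | coc S φ (p * N) x = g} := by
      filter_upwards [hform] with x hx
      by_cases hx1 : b x ∈ W₀
      · by_cases hx2 : b (S^[p * N] x) ∈ W₀
        · right
          rw [Set.mem_iUnion₂]
          obtain ⟨t, ht, e⟩ := hx (p * N)
          refine ⟨coc S φ (p * N) x, ?_, rfl⟩
          rw [e, pow_mul, hvp, one_pow, one_mul, hW, Finset.mem_image]
          exact ⟨((b (S^[p * N] x), b x), t), Finset.mem_product.2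
            ⟨Finset.mem_product.2 ⟨hx2, hx1⟩, hHfin.mem_toFinset.2 ht⟩, rfl⟩
        · exact Or.inl (Or.inr hx2)
      · exact Or.inl (Or.inl hx1)
    have h5 : μ.real (Set.univ : Set X) ≤ μ.real (({x | b x ∉ W₀} ∪
        S^[p * N] ⁻¹' {x | b x ∉ W₀}) ∪ ⋃ g ∈ W, {x | coc S φ (p * N) x = g}) := by
      rw [Measure.real, Measure.real]
      refine ENNReal.toReal_mono (measure_ne_top _ _) (measure_mono_ae ?_)
      filter_upwards [h4] with x hx _
      exact hx
    refine h5.trans ((measureReal_union_le _ _).trans (add_le_add (measureReal_union_le _ _) ?_))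
    exact measureReal_biUnion_finset_le _ _
  rw [probReal_univ, (hS.iterate _).measureReal_preimage hWm.nullMeasurableSet] at h3
  linarith

/-- **Main theorem.** -/
theorem main (μ : Measure X) [IsProbabilityMeasure μ] (ν : Measure Y)
    [IsProbabilityMeasure ν] (S : X → X) (hS : MeasurePreserving S μ μ)
    (hU : ∀ g : G, MeasurePreserving (fun y : Y => g • y) ν ν) (hmixU : MixAct G ν) (φ : X → G)
    (hφ : ∀ g, MeasurableSet {x | φ x = g}) (k : ℕ) (hk1 : 1 ≤ k) (hk : MixOrd μ S k) :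
    MixOrd (μ.prod ν) (skewU (Y := Y) S φ) k ∨
      ∃ (H : Subgroup G) (v : G) (b : X → G), Finite H ∧ (∀ g, MeasurableSet {x | b x = g}) ∧
        (∀ᵐ x ∂μ, ∃ t ∈ H, φ x = v * (b (S x) / b x) * t) ∧
        ¬ MixOrd ν (fun y : Y => v • y) k ∧
        (Infinite G → MixOrd (μ.prod ν) (skewU (Y := Y) S φ) 1 →
          MixOrd ν (fun y : Y => v • y) 1) := by
  obtain ⟨k, rfl⟩ : ∃ j, k = j + 1 := ⟨k - 1, by omega⟩
  have hmix : MixOrd μ S 1 := mixOrd_one_of μ S hS k hk
  by_cases hd : Disp μ S φ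
  · left
    exact mix_of_dec μ ν hU S hS φ hφ (k + 1) hk
      (dec_all μ ν hU hmixU S hS hmix φ hφ hd (k + 2))
  · obtain ⟨H, v, b, hH, hbm, hb⟩ := not_disp μ S hS hmix φ hφ hd
    by_cases hv : MixOrd ν (fun y : Y => v • y) (k + 1)
    · left
      exact mix_of_dec μ ν hU S hS φ hφ (k + 1) hk
        (dec_deg μ ν hU S hS φ hφ H v b hbm hb (k + 1) hv)
    · right
      refine ⟨H, v, b, hH, hbm, hb, hv, fun hG hT => ?_⟩
      obtain ⟨B₀, hB₀, h0, h1⟩ := nontriv ν _ (hU v) _ hv
      have hsmall := small_sets ν hU hmixU B₀ hB₀ h0 h1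
      have hesc := escape μ ν hU S hS φ hφ hsmall hT
      have hinf := inf_order μ S hS φ hφ H v b hbm hb hesc
      rw [← injective_pow_iff_not_isOfFinOrder] at hinf
      rw [MP_aux_iff]
      intro A B hA hB
      have h2 := (hmixU A B hA hB).comp (hinf.tendsto_cofinite)
      rw [Nat.cofinite_eq_atTop] at h2
      refine h2.congr fun n => ?_
      show ν.real (A ∩ (fun y => v ^ n • y) ⁻¹' B) = ν.real (A ∩ (fun y : Y => v • y)^[n] ⁻¹' B)
      rw [smul_iter]

end Pool.Agent.TH294.RK
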