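import Pool.Agent.TH294.RK.Basic

/-!
# Multiple mixing follows from multiple mixing on rectangles
-/

set_option autoImplicit false

namespace Pool.Agent.TH294.RK

open MeasureTheory Filter Topology H567MM

theorem ind_filter {Z ι : Type*} [MeasurableSpace Z] (P : Measure Z) [IsProbabilityMeasure P]
    (L : Filter ι) (F : ι → Measure Z) [∀ n, IsFiniteMeasure (F n)]
    (hle : ∀ n s, MeasurableSet s → (F n).real s ≤ P.real s) (c : ℝ) (C : Set (Set Z))
    (hgen : MeasurableSpace.generateFrom C = ‹MeasurableSpace Z›) (hpi : IsPiSystem C)
    (huniv : Tendsto (fun n => (F n).real Set.univ) L (𝓝 c))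
    (hbasic : ∀ s ∈ C, Tendsto (fun n => (F n).real s) L (𝓝 (c * P.real s))) :
    ∀ s, MeasurableSet s → Tendsto (fun n => (F n).real s) L (𝓝 (c * P.real s)) := by
  intro s hs
  refine MeasurableSpace.induction_on_inter
    (C := fun s _ => Tendsto (fun n => (F n).real s) L (𝓝 (c * P.real s)))
    hgen.symm hpi ?_ hbasic ?_ ?_ s hs
  · simp only [measureReal_empty, mul_zero]
    exact tendsto_const_nhds
  · intro t ht ih
    have h1 : (fun n => (F n).real tᶜ) = fun n => (F n).real Set.univ - (F n).real t := by
      funext n
      rw [measureReal_compl ht]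
    rw [h1, probReal_compl_eq_one_sub ht, mul_sub, mul_one]
    exact huniv.sub ih
  · intro f hd hf ih
    have h1 : ∀ (Q : Measure Z) [IsFiniteMeasure Q], Q.real (⋃ i, f i) = ∑' i, Q.real (f i) := by
      intro Q _
      simp only [measureReal_def]
      rw [measure_iUnion hd hf, ENNReal.tsum_toReal_eq (fun i => measure_ne_top _ _)]
    simp only [h1]
    rw [← tsum_mul_left]
    refine tendsto_tsum_of_dominated_convergence (summable_measure_toReal (μ := P) hf hd) ih
      (Eventually.of_forall fun n k => ?_)
    rw [Real.norm_of_nonneg measureReal_nonneg]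
    exact hle n _ (hf k)

theorem mix_of_rect {X Y : Type*} [MeasurableSpace X] [MeasurableSpace Y] (μ : Measure X)
    (ν : Measure Y) [IsProbabilityMeasure μ] [IsProbabilityMeasure ν] (T : X × Y → X × Y)
    (hT : MeasurePreserving T (μ.prod ν) (μ.prod ν)) (k : ℕ)
    (h : ∀ (A : Fin (k + 1) → Set X) (B : Fin (k + 1) → Set Y), (∀ j, MeasurableSet (A j)) →
      (∀ j, MeasurableSet (B j)) →
      Tendsto (fun n : Fin (k + 1) → ℕ => (μ.prod ν).real (⋂ j, T^[n j] ⁻¹' (A j ×ˢ B j)))
        (gapF (k + 1)) (𝓝 (∏ j, (μ.prod ν).real (A j ×ˢ B j)))) : MixOrd (μ.prod ν) T k := by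
  classical
  rw [mixOrd_iff _ T hT]
  set P := μ.prod ν with hP
  have key : ∀ i : ℕ, i ≤ k + 1 → ∀ E : Fin (k + 1) → Set (X × Y),
      (∀ j, MeasurableSet (E j)) →
      (∀ j : Fin (k + 1), i ≤ j.val → ∃ (A : Set X) (B : Set Y), MeasurableSet A ∧
        MeasurableSet B ∧ E j = A ×ˢ B) →
      Tendsto (fun n : Fin (k + 1) → ℕ => P.real (⋂ j, T^[n j] ⁻¹' E j)) (gapF (k + 1))
        (𝓝 (∏ j, P.real (E j))) := by
    intro i
    induction i with
    | zero =>
      intro _ E _ hE
      choose A B hA hB e using fun j => hE j (Nat.zero_le _)
      simp only [e]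
      exact h A B hA hB
    | succ i ih =>
      intro hik E hEm hE
      set i0 : Fin (k + 1) := ⟨i, by omega⟩ with hi0
      -- replace the set number `i0`
      have hupd : ∀ (s : Set (X × Y)) (n : Fin (k + 1) → ℕ),
          (⋂ j, T^[n j] ⁻¹' (Function.update E i0 s) j) =
            T^[n i0] ⁻¹' s ∩ ⋂ j ∈ (Finset.univ.erase i0), T^[n j] ⁻¹' E j := by
        intro s n
        ext z
        simp only [Set.mem_iInter, Set.mem_inter_iff, Set.mem_preimage, Finset.mem_erase,
          Finset.mem_univ, and_true]
        constructor
        · intro hz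
          refine ⟨by simpa using hz i0, fun j hj => ?_⟩
          have := hz j
          rwa [Function.update_of_ne hj] at this
        · rintro ⟨h1, h2⟩ j
          by_cases hj : j = i0
          · subst hj
            simpa using h1
          · rw [Function.update_of_ne hj]
            exact h2 j hj
      have hprod : ∀ s : Set (X × Y), ∏ j, P.real ((Function.update E i0 s) j) =
          (∏ j ∈ Finset.univ.erase i0, P.real (E j)) * P.real s := by
        intro s
        rw [← Finset.mul_prod_erase _ _ (Finset.mem_univ i0), Function.update_self, mul_comm]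
        congr 1
        refine Finset.prod_congr rfl fun j hj => ?_
        rw [Function.update_of_ne (Finset.ne_of_mem_erase hj)]
      have hD : ∀ n : Fin (k + 1) → ℕ,
          MeasurableSet (⋂ j ∈ (Finset.univ.erase i0), T^[n j] ⁻¹' E j) := fun n =>
        MeasurableSet.biInter (Set.to_countable _) fun j _ => (hT.iterate _).measurable (hEm j)
      set F : (Fin (k + 1) → ℕ) → Measure (X × Y) := fun n =>
        (P.restrict (⋂ j ∈ (Finset.univ.erase i0), T^[n j] ⁻¹' E j)).map T^[n i0] with hF
      have hFs : ∀ n s, MeasurableSet s → (F n).real s =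
          P.real (⋂ j, T^[n j] ⁻¹' (Function.update E i0 s) j) := by
        intro n s hs
        rw [hF]
        simp only
        rw [map_measureReal_apply (hT.iterate _).measurable hs,
          measureReal_restrict_apply ((hT.iterate _).measurable hs), hupd]
      have hfin : ∀ n, IsFiniteMeasure (F n) := fun n => by
        rw [hF]; infer_instance
      have hrect : ∀ (A : Set X) (B : Set Y), MeasurableSet A → MeasurableSet B →
          Tendsto (fun n => (F n).real (A ×ˢ B)) (gapF (k + 1))
            (𝓝 ((∏ j ∈ Finset.univ.erase i0, P.real (E j)) * P.real (A ×ˢ B))) := by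
        intro A B hA hB
        simp only [hFs _ _ (hA.prod hB)]
        rw [← hprod]
        refine ih (by omega) _ (fun j => ?_) (fun j hj => ?_)
        · by_cases hji : j = i0
          · subst hji
            rw [Function.update_self]
            exact hA.prod hB
          · rw [Function.update_of_ne hji]
            exact hEm j
        · by_cases hji : j = i0
          · subst hji
            rw [Function.update_self]
            exact ⟨A, B, hA, hB, rfl⟩
          · rw [Function.update_of_ne hji]
            refine hE j ?_
            have : j.val ≠ i := fun he => hji (Fin.ext he)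
            omega
      have := ind_filter P (gapF (k + 1)) F (fun n s hs => by
        rw [hF]
        simp only
        rw [map_measureReal_apply (hT.iterate _).measurable hs,
          measureReal_restrict_apply ((hT.iterate _).measurable hs),
          ← (hT.iterate (n i0)).measureReal_preimage hs.nullMeasurableSet]
        exact measureReal_mono Set.inter_subset_left) (∏ j ∈ Finset.univ.erase i0, P.real (E j)) _
        generateFrom_prod isPiSystem_prod (by
          have := hrect Set.univ Set.univ MeasurableSet.univ MeasurableSet.univ
          rw [Set.univ_prod_univ] at this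
          simpa using this) (by
          rintro _ ⟨A, hA, B, hB, rfl⟩
          exact hrect A B hA hB) (E i0) (hEm i0)
      simp only [hFs _ _ (hEm i0)] at this
      rw [← hprod, Function.update_eq_self] at this
      exact this
  intro E hE
  exact key (k + 1) le_rfl E hE (fun j hj => absurd j.isLt (by omega))

end Pool.Agent.TH294.RK
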