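import Pool.Agent.TH294.RK.DecInd
import Pool.Agent.TH294.RK.Rect

/-!
# Multiple mixing of the skew product from the decorrelation of the fibre integrals
-/

set_option autoImplicit false
set_option linter.unusedSectionVars false

namespace Pool.Agent.TH294.RK

open MeasureTheory Filter Topology H567MM

variable {X Y G : Type*} [MeasurableSpace X] [MeasurableSpace Y] [CommGroup G] [Countable G]
  [MulAction G Y]

/-- the skew product `(x, y) ↦ (S x, φ(x) y)` -/
def skewU (S : X → X) (φ : X → G) (z : X × Y) : X × Y := (S z.1, φ z.1 • z.2)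

theorem skewU_iterate (S : X → X) (φ : X → G) (n : ℕ) (z : X × Y) :
    (skewU S φ)^[n] z = (S^[n] z.1, coc S φ n z.1 • z.2) := by
  induction n with
  | zero => simp [coc]
  | succ n ih =>
    rw [Function.iterate_succ_apply', ih, skewU, Function.iterate_succ_apply', smul_smul]
    simp only [coc]
    rw [mul_comm]

theorem skewU_mp (μ : Measure X) [IsProbabilityMeasure μ] (ν : Measure Y)
    [IsProbabilityMeasure ν] (hU : ∀ g : G, MeasurePreserving (fun y : Y => g • y) ν ν)
    (S : X → X) (hS : MeasurePreserving S μ μ) (φ : X → G)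
    (hφ : ∀ g, MeasurableSet {x | φ x = g}) :
    MeasurePreserving (skewU (Y := Y) S φ) (μ.prod ν) (μ.prod ν) := by
  have hm : Measurable (Function.uncurry fun (x : X) (y : Y) => φ x • y) :=
    meas_act (fun g => (hU g).measurable) φ hφ
  exact hS.skew_product hm (ae_of_all _ fun x => (hU (φ x)).map_eq)

theorem mix_of_dec (μ : Measure X) [IsProbabilityMeasure μ] (ν : Measure Y)
    [IsProbabilityMeasure ν] (hU : ∀ g : G, MeasurePreserving (fun y : Y => g • y) ν ν)
    (S : X → X) (hS : MeasurePreserving S μ μ) (φ : X → G)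
    (hφ : ∀ g, MeasurableSet {x | φ x = g}) (k : ℕ) (hk : MixOrd μ S k)
    (hdec : Dec μ ν S φ (k + 1)) : MixOrd (μ.prod ν) (skewU (Y := Y) S φ) k := by
  classical
  have hUm : ∀ g : G, Measurable fun y : Y => g • y := fun g => (hU g).measurable
  refine mix_of_rect μ ν _ (skewU_mp μ ν hU S hS φ hφ) k fun A B hA hB => ?_
  rw [mixOrd_iff μ S hS] at hk
  have hkA := hk A hA
  set q : Fin (k + 1) → Y → ℝ := fun j => (B j).indicator fun _ => (1 : ℝ) with hq
  have hqm : ∀ j, Measurable (q j) := fun j => measurable_const.indicator (hB j)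
  have hqb : ∀ j y, |q j y| ≤ 1 := by
    intro j y
    simp only [hq]
    by_cases h : y ∈ B j
    · simp [h]
    · simp [h]
  have hqi : ∀ j, ∫ y, q j y ∂ν = ν.real (B j) := by
    intro j
    simp only [hq]
    rw [integral_indicator_const _ (hB j)]
    simp
  have hd := hdec q hqm 1 hqb
  simp only [hqi] at hd
  -- the correlation as an integral over the base
  set E : (Fin (k + 1) → ℕ) → Set X := fun n => ⋂ j, S^[n j] ⁻¹' A j with hE
  have hEm : ∀ n, MeasurableSet (E n) := fun n =>
    MeasurableSet.iInter fun j => (hS.iterate _).measurable (hA j)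
  have hθm := fun n => theta_meas ν hUm S hS.measurable φ hφ q hqm n
  have hθb : ∀ n x, |theta ν S φ q n x| ≤ 1 := by
    intro n x
    have := theta_le ν S φ q 1 hqb n x
    rwa [one_pow] at this
  have hcorr : ∀ n, (μ.prod ν).real (⋂ j, (skewU (Y := Y) S φ)^[n j] ⁻¹' (A j ×ˢ B j)) =
      ∫ x, (E n).indicator (fun _ => (1 : ℝ)) x * theta ν S φ q n x ∂μ := by
    intro n
    have hm : MeasurableSet (⋂ j, (skewU (Y := Y) S φ)^[n j] ⁻¹' (A j ×ˢ B j)) :=
      MeasurableSet.iInter fun j => ((skewU_mp μ ν hU S hS φ hφ).iterate _).measurable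
        ((hA j).prod (hB j))
    have h1 : (μ.prod ν).real (⋂ j, (skewU (Y := Y) S φ)^[n j] ⁻¹' (A j ×ˢ B j)) =
        ∫ z, (⋂ j, (skewU (Y := Y) S φ)^[n j] ⁻¹' (A j ×ˢ B j)).indicator
          (fun _ => (1 : ℝ)) z ∂(μ.prod ν) := by
      rw [integral_indicator_const _ hm]
      simp
    rw [h1, integral_prod _ ((integrable_const _).indicator hm)]
    congr 1
    funext x
    rw [theta, ← integral_const_mul]
    congr 1
    funext y
    by_cases hz : (x, y) ∈ ⋂ j, (skewU (Y := Y) S φ)^[n j] ⁻¹' (A j ×ˢ B j)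
    · rw [Set.indicator_of_mem hz]
      rw [Set.mem_iInter] at hz
      have h2 : ∀ j, S^[n j] x ∈ A j ∧ coc S φ (n j) x • y ∈ B j := by
        intro j
        have := hz j
        rw [Set.mem_preimage, skewU_iterate] at this
        exact this
      have h3 : x ∈ E n := Set.mem_iInter.2 fun j => (h2 j).1
      rw [Set.indicator_of_mem h3, one_mul, Finset.prod_eq_one]
      intro j _
      exact Set.indicator_of_mem (h2 j).2 _
    · rw [Set.indicator_of_notMem hz]
      rw [Set.mem_iInter, not_forall] at hz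
      obtain ⟨j, hj⟩ := hz
      rw [Set.mem_preimage, skewU_iterate, Set.mem_prod] at hj
      by_cases h3 : x ∈ E n
      · have h4 : S^[n j] x ∈ A j := Set.mem_iInter.1 h3 j
        have h5 : coc S φ (n j) x • y ∉ B j := fun h => hj ⟨h4, h⟩
        have h6 : ∏ j, q j (coc S φ (n j) x • y) = 0 :=
          Finset.prod_eq_zero (Finset.mem_univ j) (Set.indicator_of_notMem h5 _)
        rw [h6, mul_zero]
      · rw [Set.indicator_of_notMem h3, zero_mul]
  have hprod : ∏ j, (μ.prod ν).real (A j ×ˢ B j) = (∏ j, μ.real (A j)) * ∏ j, ν.real (B j) := by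
    rw [← Finset.prod_mul_distrib]
    refine Finset.prod_congr rfl fun j _ => ?_
    rw [measureReal_prod_prod]
  rw [hprod]
  simp only [hcorr]
  set c : ℝ := ∏ j, ν.real (B j) with hc
  have h1 : Tendsto (fun n => μ.real (E n) * c) (gapF (k + 1)) (𝓝 ((∏ j, μ.real (A j)) * c)) :=
    hkA.mul_const c
  have h2 : Tendsto (fun n => (∫ x, (E n).indicator (fun _ => (1 : ℝ)) x * theta ν S φ q n x ∂μ) -
      μ.real (E n) * c) (gapF (k + 1)) (𝓝 0) := by
    rw [tendsto_zero_iff_abs_tendsto_zero]
    refine squeeze_zero (fun n => abs_nonneg _) (fun n => ?_) hd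
    have e1 : μ.real (E n) * c = ∫ x, (E n).indicator (fun _ => (1 : ℝ)) x * c ∂μ := by
      rw [integral_mul_const, integral_indicator_const _ (hEm n)]
      simp
    have hi1 : Integrable (fun x => (E n).indicator (fun _ => (1 : ℝ)) x * theta ν S φ q n x) μ :=
      Integrable.of_bound ((measurable_const.indicator (hEm n)).mul (hθm n)).aestronglyMeasurable 1
        (ae_of_all _ fun x => by
          rw [Real.norm_eq_abs, abs_mul]
          have h3 : |(E n).indicator (fun _ => (1 : ℝ)) x| ≤ 1 := by
            by_cases h : x ∈ E n <;> simp [h]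
          calc _ ≤ 1 * 1 := mul_le_mul h3 (hθb n x) (abs_nonneg _) zero_le_one
            _ = 1 := one_mul _)
    have hi2 : Integrable (fun x => (E n).indicator (fun _ => (1 : ℝ)) x * c) μ :=
      ((integrable_const _).indicator (hEm n)).mul_const c
    have hi3 : Integrable (fun x => |theta ν S φ q n x - c|) μ := by
      refine (Integrable.sub ?_ (integrable_const c)).abs
      exact Integrable.of_bound (hθm n).aestronglyMeasurable 1
        (ae_of_all _ fun x => by rw [Real.norm_eq_abs]; exact hθb n x)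
    show |(∫ x, (E n).indicator (fun _ => (1 : ℝ)) x * theta ν S φ q n x ∂μ) -
      μ.real (E n) * c| ≤ ∫ x, |theta ν S φ q n x - c| ∂μ
    rw [e1, ← integral_sub hi1 hi2]
    refine (abs_integral_le_integral_abs).trans ?_
    refine integral_mono (hi1.sub hi2).abs hi3 fun x => ?_
    show |(E n).indicator (fun _ => (1 : ℝ)) x * theta ν S φ q n x -
      (E n).indicator (fun _ => (1 : ℝ)) x * c| ≤ |theta ν S φ q n x - c|
    rw [← mul_sub, abs_mul]
    have h3 : |(E n).indicator (fun _ => (1 : ℝ)) x| ≤ 1 := by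
      by_cases h : x ∈ E n <;> simp [h]
    calc _ ≤ 1 * |theta ν S φ q n x - c| := mul_le_mul_of_nonneg_right h3 (abs_nonneg _)
      _ = _ := one_mul _
  have h3 := h2.add h1
  simpa using h3

end Pool.Agent.TH294.RK
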