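import Pool.Agent.TH294.RK.FunMix
import Pool.Agent.TH294.RK.Coll

/-!
# The off-diagonal terms of the van der Corput inequality
-/

set_option autoImplicit false
set_option linter.unusedSectionVars false

namespace Pool.Agent.TH294.RK

open MeasureTheory Filter Topology H567MM

variable {X Y G : Type*} [MeasurableSpace X] [MeasurableSpace Y] [CommGroup G] [Countable G]
  [MulAction G Y]

/-- the fibre integrals of `r` functions converge to the products of the integrals -/
def Dec (μ : Measure X) (ν : Measure Y) (S : X → X) (φ : X → G) (r : ℕ) : Prop :=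
  ∀ q : Fin r → Y → ℝ, (∀ i, Measurable (q i)) → ∀ B : ℝ, (∀ i y, |q i y| ≤ B) →
    Tendsto (fun n => ∫ x, |theta ν S φ q n x - ∏ i, ∫ y, q i y ∂ν| ∂μ) (gapF r) (𝓝 0)

/-- the action is mixing -/
def MixAct (G : Type*) {Y : Type*} [MeasurableSpace Y] [Group G] [MulAction G Y]
    (ν : Measure Y) : Prop :=
  ∀ A B : Set Y, MeasurableSet A → MeasurableSet B →
    Tendsto (fun g : G => ν.real (A ∩ (fun y => g • y) ⁻¹' B)) cofinite
      (𝓝 (ν.real A * ν.real B))

theorem off (μ : Measure X) [IsProbabilityMeasure μ] (ν : Measure Y) [IsProbabilityMeasure ν]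
    (hU : ∀ g : G, MeasurePreserving (fun y : Y => g • y) ν ν) (hmixU : MixAct G ν) (S : X → X)
    (hS : MeasurePreserving S μ μ) (hmix : MixOrd μ S 1) (φ : X → G)
    (hφ : ∀ g, MeasurableSet {x | φ x = g}) {s : ℕ} (hdec : Dec μ ν S φ (s + 1))
    (q : Fin (s + 2) → Y → ℝ)
    (hq : ∀ i, Measurable (q i)) (B : ℝ) (hB1 : 1 ≤ B) (hB : ∀ i y, |q i y| ≤ B)
    (h0 : ∫ y, q 0 y ∂ν = 0) (τ : ℝ) (hτ : 0 < τ) :
    ∃ δ : ℝ, 0 < δ ∧ ∀ a b : ℕ, b < a →
      (μ.prod μ).real {z : X × X | coc S φ (a - b) z.1 = coc S φ (a - b) z.2} < δ →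
      ∀ᶠ n in gapF (s + 2), ∫ x, |Gam ν S φ q n a b x| ∂μ < τ := by
  classical
  have hUm : ∀ g : G, Measurable fun y : Y => g • y := fun g => (hU g).measurable
  have hB0 : 0 ≤ B := by linarith
  have hBp : ∀ m : ℕ, 0 < B ^ m := fun m => pow_pos (by linarith) m
  have hlv := coc_level S hS.measurable φ hφ
  -- the correlation function of `q 0`
  set ρ : G → ℝ := fun g => ∫ y, q 0 y * q 0 (g • y) ∂ν with hρ
  have hρb : ∀ g, |ρ g| ≤ B * B := fun g => int_abs_le ν _ _ fun y => by
    rw [abs_mul]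
    exact mul_le_mul (hB _ _) (hB _ _) (abs_nonneg _) hB0
  have hρ0 : Tendsto ρ cofinite (𝓝 0) := by
    have := fun_mix ν cofinite (fun (g : G) (y : Y) => g • y) hU hmixU (q 0) (q 0) (hq 0) (hq 0) B
      (hB 0) (hB 0)
    rw [h0, mul_zero] at this
    exact this
  obtain ⟨K, hK⟩ : ∃ K : Finset G, ∀ g, g ∉ K → |ρ g| < τ / (4 * B ^ (2 * s)) := by
    have h1 := Metric.tendsto_nhds.1 hρ0 (τ / (4 * B ^ (2 * s))) (by have := hBp (2 * s); positivity)
    rw [Filter.eventually_cofinite] at h1
    refine ⟨h1.toFinset, fun g hg => ?_⟩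
    by_contra hcon
    apply hg
    rw [Set.Finite.mem_toFinset]
    simp only [Real.dist_eq, sub_zero, Set.mem_ofPred_eq]
    exact hcon
  set δ : ℝ := τ / (8 * B ^ (2 * s + 2) * ((K.card : ℝ) + 1)) with hδ
  have hδ0 : 0 < δ := by have := hBp (2 * s + 2); positivity
  refine ⟨δ, hδ0, fun a b hab hp => ?_⟩
  -- the window
  set e : ℝ := τ / (16 * ((s : ℝ) + 1) * B ^ (2 * s + 2)) with he
  have he0 : 0 < e := by have := hBp (2 * s + 2); positivity
  obtain ⟨Wa, hWa⟩ := CL_aux_finset μ (coc S φ a) (hlv a) e he0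
  obtain ⟨Wb, hWb⟩ := CL_aux_finset μ (coc S φ b) (hlv b) e he0
  set W : Finset G := ((Wa ∪ Wb) ×ˢ (Wa ∪ Wb)).image (fun p => p.1 / p.2) with hW
  have hlvS : ∀ (v : X → G), (∀ g, MeasurableSet {x | v x = g}) → ∀ F : Finset G,
      MeasurableSet {x | v x ∉ F} := by
    intro v hv F
    have : {x | v x ∉ F} = (⋃ g ∈ F, {x | v x = g})ᶜ := by
      ext x
      simp
    rw [this]
    exact (Finset.measurableSet_biUnion _ fun g _ => hv g).compl
  -- bad sets
  have hbad1 : ∀ (t : ℕ) (Wt : Finset G), Wt ⊆ Wa ∪ Wb → μ.real {x | coc S φ t x ∉ Wt} < e →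
      ∀ (n : Fin (s + 2) → ℕ) (i : Fin (s + 1)), μ.real {x | ww S φ n t i x ∉ W} ≤ 2 * e := by
    intro t Wt hsub ht n i
    have h1 : {x | ww S φ n t i x ∉ W} ⊆ S^[n i.castSucc] ⁻¹' {x | coc S φ t x ∉ Wt} ∪
        S^[n (Fin.last _)] ⁻¹' {x | coc S φ t x ∉ Wt} := by
      intro x hx
      by_contra hcon
      simp only [Set.mem_union, Set.mem_preimage, Set.mem_ofPred_eq, not_or, not_not] at hcon
      apply hx
      rw [hW, Finset.mem_image]
      exact ⟨(_, _), Finset.mem_product.2 ⟨hsub hcon.1, hsub hcon.2⟩, rfl⟩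
    refine (measureReal_mono h1).trans ((measureReal_union_le _ _).trans ?_)
    rw [(hS.iterate _).measureReal_preimage (hlvS _ (hlv t) Wt).nullMeasurableSet,
      (hS.iterate _).measureReal_preimage (hlvS _ (hlv t) Wt).nullMeasurableSet]
    linarith
  set bad : (Fin (s + 2) → ℕ) → Set X := fun n =>
    ⋃ i : Fin (s + 1), ({x | ww S φ n a i x ∉ W} ∪ {x | ww S φ n b i x ∉ W}) with hbad
  have hwl := fun n t i => ww_level S hS.measurable φ hφ (s := s) n t i
  have hbadm : ∀ n, MeasurableSet (bad n) := fun n => MeasurableSet.iUnion fun i =>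
    (hlvS _ (hwl n a i) W).union (hlvS _ (hwl n b i) W)
  have hbadμ : ∀ n, μ.real (bad n) ≤ ((s : ℝ) + 1) * (4 * e) := by
    intro n
    have h1 : μ.real (bad n) ≤ ∑ i : Fin (s + 1),
        μ.real ({x | ww S φ n a i x ∉ W} ∪ {x | ww S φ n b i x ∉ W}) :=
      measureReal_iUnion_fintype_le _
    refine h1.trans ((Finset.sum_le_card_nsmul _ _ (4 * e) fun i _ => ?_).trans ?_)
    · refine (measureReal_union_le _ _).trans ?_
      have h2 := hbad1 a Wa Finset.subset_union_left hWa n i
      have h3 := hbad1 b Wb Finset.subset_union_right hWb n i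
      linarith
    · rw [Finset.card_univ, Fintype.card_fin, nsmul_eq_mul]
      push_cast
      exact le_rfl
  -- the pairs of tuples
  set TW : Finset (Fin (s + 1) → G) := Fintype.piFinset fun _ => W with hTW
  set Q : (Fin (s + 1) → G) → (Fin (s + 1) → G) → Fin (s + 1) → Y → ℝ := fun g h i y =>
    q i.castSucc (g i • y) * q i.castSucc (h i • y) with hQ
  have hQm : ∀ g h i, Measurable (Q g h i) := fun g h i =>
    ((hq _).comp (hUm _)).mul ((hq _).comp (hUm _))
  have hQb : ∀ g h i y, |Q g h i y| ≤ B * B := fun g h i y => by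
    simp only [hQ]
    rw [abs_mul]
    exact mul_le_mul (hB _ _) (hB _ _) (abs_nonneg _) hB0
  set D : (Fin (s + 1) → G) → (Fin (s + 1) → G) → (Fin (s + 2) → ℕ) → X → ℝ := fun g h n x =>
    |theta ν S φ (Q g h) (fun i => n i.castSucc) x - ∏ i, ∫ y, Q g h i y ∂ν| with hD
  have hDm : ∀ g h n, Measurable (D g h n) := fun g h n =>
    ((theta_meas ν hUm S hS.measurable φ hφ (Q g h) (hQm g h) _).sub measurable_const).abs
  have hDb : ∀ g h n x, |D g h n x| ≤ 2 * (B * B) ^ (s + 1) := by
    intro g h n x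
    simp only [hD]
    rw [abs_abs]
    refine (abs_sub _ _).trans ?_
    have h1 : |theta ν S φ (Q g h) (fun i => n i.castSucc) x| ≤ (B * B) ^ (s + 1) := by
      refine int_abs_le ν _ _ fun y => ?_
      have := abs_prod_le Finset.univ (fun i : Fin (s + 1) =>
        Q g h i (coc S φ (n i.castSucc) x • y)) (B * B) (fun i => hQb _ _ _ _)
      simpa using this
    have h2 : |∏ i, ∫ y, Q g h i y ∂ν| ≤ (B * B) ^ (s + 1) := by
      have := abs_prod_le Finset.univ (fun i : Fin (s + 1) => ∫ y, Q g h i y ∂ν) (B * B)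
        (fun i => int_abs_le ν _ _ (hQb g h i))
      simpa using this
    linarith
  have hDi : ∀ g h n, Integrable (D g h n) μ := fun g h n =>
    Integrable.of_bound (hDm g h n).aestronglyMeasurable (2 * (B * B) ^ (s + 1))
      (ae_of_all _ fun x => by rw [Real.norm_eq_abs]; exact hDb g h n x)
  have hDlim : Tendsto (fun n => ∑ g ∈ TW, ∑ h ∈ TW, ∫ x, D g h n x ∂μ) (gapF (s + 2)) (𝓝 0) := by
    have : (0 : ℝ) = ∑ g ∈ TW, ∑ h ∈ TW, 0 := by simp
    rw [this]
    refine tendsto_finsetSum _ fun g _ => tendsto_finsetSum _ fun h _ => ?_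
    exact (hdec (Q g h) (hQm g h) (B * B) (hQb g h)).comp (tendsto_castSucc (s + 1))
  have hDev := Metric.tendsto_nhds.1 hDlim (τ / 4) (by positivity)
  -- collisions
  have hcoll : ∀ κ : G, ∃ N : ℕ, ∀ n : Fin (s + 2) → ℕ, Gaps N n →
      μ.real {x | ww S φ n a 0 x = κ * ww S φ n b 0 x} < 2 * δ := by
    intro κ
    obtain ⟨N, hN⟩ := collision_shift μ S hS hmix (coc S φ (a - b)) (hlv (a - b)) κ δ hδ0
    refine ⟨N, fun n hn => ?_⟩
    have h1 : n 0 + N ≤ n (Fin.last _) := hn 0 (Fin.last _) (Fin.last_pos)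
    have h2 := hN (n (Fin.last _) - n 0) (by omega)
    have h3 : {x | ww S φ n a 0 x = κ * ww S φ n b 0 x} =
        S^[b + n 0] ⁻¹' {x | coc S φ (a - b) x = κ * coc S φ (a - b) (S^[n (Fin.last _) - n 0] x)} := by
      ext x
      have h4 : ∀ m, coc S φ a (S^[m] x) = coc S φ b (S^[m] x) * coc S φ (a - b) (S^[b + m] x) := by
        intro m
        have := coc_add S φ b (a - b) (S^[m] x)
        rw [Nat.add_sub_cancel' hab.le, ← Function.iterate_add_apply] at this
        exact this
      simp only [Set.mem_ofPred_eq, Set.mem_preimage, ww]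
      rw [← Function.iterate_add_apply, h4, h4]
      have h5 : n (Fin.last (s + 1)) - n 0 + (b + n 0) = b + n (Fin.last _) := by omega
      rw [h5]
      have h6 : (Fin.castSucc (0 : Fin (s + 1))) = 0 := rfl
      rw [h6]
      constructor
      · intro h
        rw [mul_div_mul_comm, mul_comm κ] at h
        have := mul_left_cancel h
        rw [div_eq_iff_eq_mul] at this
        exact this
      · intro h
        rw [h, mul_div_mul_comm, mul_div_cancel_right, mul_comm]
    rw [h3, (hS.iterate _).measureReal_preimage]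
    · linarith
    · refine MeasurableSet.nullMeasurableSet ?_
      have h7 : {x | coc S φ (a - b) x = κ * coc S φ (a - b) (S^[n (Fin.last _) - n 0] x)} =
          {x | coc S φ (a - b) x / coc S φ (a - b) (S^[n (Fin.last _) - n 0] x) = κ} := by
        ext x
        simp only [Set.mem_ofPred_eq, div_eq_iff_eq_mul]
      rw [h7]
      exact level_op₂ _ _ (hlv (a - b)) (fun g => level_comp _ (hlv (a - b)) _
        (hS.iterate _).measurable g) (fun g h => g / h) κ
  choose N hN using hcoll
  have hcolle : ∀ᶠ n in gapF (s + 2), ∀ κ ∈ K,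
      μ.real {x | ww S φ n a 0 x = κ * ww S φ n b 0 x} < 2 * δ := by
    rw [eventually_gapF]
    refine ⟨K.sup N, fun n hn κ hκ => hN κ n (gaps_mono (Finset.le_sup hκ) hn)⟩
  filter_upwards [hDev, hcolle] with n hn1 hn2
  rw [Real.dist_eq, sub_zero] at hn1
  have hn1' := lt_of_le_of_lt (le_abs_self _) hn1
  -- measurability of the collision sets
  have hcm : ∀ κ, MeasurableSet {x | ww S φ n a 0 x = κ * ww S φ n b 0 x} := by
    intro κ
    have h7 : {x | ww S φ n a 0 x = κ * ww S φ n b 0 x} =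
        {x | ww S φ n a 0 x / ww S φ n b 0 x = κ} := by
      ext x
      simp only [Set.mem_ofPred_eq, div_eq_iff_eq_mul]
    rw [h7]
    exact level_op₂ _ _ (hwl n a 0) (hwl n b 0) (fun g h => g / h) κ
  -- the pointwise bound
  have hpt : ∀ x, |Gam ν S φ q n a b x| ≤
      B ^ (2 * s + 2) * (bad n).indicator (fun _ => (1 : ℝ)) x +
      (∑ g ∈ TW, ∑ h ∈ TW, D g h n x) + τ / 4 +
      B ^ (2 * s + 2) * ∑ κ ∈ K,
        {x | ww S φ n a 0 x = κ * ww S φ n b 0 x}.indicator (fun _ => (1 : ℝ)) x := by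
    intro x
    have hD0 : ∀ g h, 0 ≤ D g h n x := fun g h => abs_nonneg _
    have hDs : 0 ≤ ∑ g ∈ TW, ∑ h ∈ TW, D g h n x :=
      Finset.sum_nonneg fun g _ => Finset.sum_nonneg fun h _ => hD0 g h
    have hκs : 0 ≤ ∑ κ ∈ K,
        {x | ww S φ n a 0 x = κ * ww S φ n b 0 x}.indicator (fun _ => (1 : ℝ)) x :=
      Finset.sum_nonneg fun κ _ => Set.indicator_nonneg (fun _ _ => zero_le_one) _
    have hBB := hBp (2 * s + 2)
    by_cases hx : x ∈ bad n
    · rw [Set.indicator_of_mem hx, mul_one]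
      have h1 : |Gam ν S φ q n a b x| ≤ B ^ (s + 1) * B ^ (s + 1) := by
        refine int_abs_le ν _ _ fun y => ?_
        rw [abs_mul]
        refine mul_le_mul ?_ ?_ (abs_nonneg _) (pow_nonneg hB0 _)
        · have := abs_prod_le Finset.univ (fun i : Fin (s + 1) =>
            q i.castSucc (ww S φ n a i x • (coc S φ (n i.castSucc) x • y))) B (fun i => hB _ _)
          simpa using this
        · have := abs_prod_le Finset.univ (fun i : Fin (s + 1) =>
            q i.castSucc (ww S φ n b i x • (coc S φ (n i.castSucc) x • y))) B (fun i => hB _ _)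
          simpa using this
      have h2 : B ^ (s + 1) * B ^ (s + 1) = B ^ (2 * s + 2) := by
        rw [← pow_add]
        congr 1
        omega
      rw [h2] at h1
      have h3 : 0 ≤ B ^ (2 * s + 2) * ∑ κ ∈ K,
        {x | ww S φ n a 0 x = κ * ww S φ n b 0 x}.indicator (fun _ => (1 : ℝ)) x :=
        mul_nonneg hBB.le hκs
      linarith
    · rw [Set.indicator_of_notMem hx, mul_zero, zero_add]
      set g : Fin (s + 1) → G := fun i => ww S φ n a i x with hg
      set h : Fin (s + 1) → G := fun i => ww S φ n b i x with hh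
      have hgW : g ∈ TW := by
        rw [hTW, Fintype.mem_piFinset]
        intro i
        by_contra hcon
        exact hx (Set.mem_iUnion.2 ⟨i, Or.inl hcon⟩)
      have hhW : h ∈ TW := by
        rw [hTW, Fintype.mem_piFinset]
        intro i
        by_contra hcon
        exact hx (Set.mem_iUnion.2 ⟨i, Or.inr hcon⟩)
      have h1 : Gam ν S φ q n a b x = theta ν S φ (Q g h) (fun i => n i.castSucc) x := by
        rw [Gam, theta]
        congr 1
        funext y
        rw [← Finset.prod_mul_distrib]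
      have h2 : D g h n x ≤ ∑ g ∈ TW, ∑ h ∈ TW, D g h n x :=
        (Finset.single_le_sum (f := fun h => D g h n x) (fun h _ => hD0 g h) hhW).trans
          (Finset.single_le_sum (f := fun g => ∑ h ∈ TW, D g h n x)
            (fun g _ => Finset.sum_nonneg fun h _ => hD0 g h) hgW)
      have h3 : |Gam ν S φ q n a b x| ≤ D g h n x + |∏ i, ∫ y, Q g h i y ∂ν| := by
        rw [h1]
        have : theta ν S φ (Q g h) (fun i => n i.castSucc) x =
            (theta ν S φ (Q g h) (fun i => n i.castSucc) x - ∏ i, ∫ y, Q g h i y ∂ν) +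
            ∏ i, ∫ y, Q g h i y ∂ν := by ring
        rw [this]
        exact abs_add_le _ _
      have h4 : ∫ y, Q g h 0 y ∂ν = ρ (g 0 / h 0) := by
        have h5 := int_comp ν (fun y => (h 0) • y) (hU (h 0))
          (fun y => q 0 y * q 0 ((g 0 / h 0) • y))
          ((hq 0).mul ((hq 0).comp (hUm _)))
        rw [hρ]
        simp only
        rw [← h5]
        congr 1
        funext y
        simp only [hQ]
        rw [smul_smul, div_mul_cancel, mul_comm]
        rfl
      have h6 : |∏ i, ∫ y, Q g h i y ∂ν| ≤ B ^ (2 * s) * |ρ (g 0 / h 0)| := by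
        rw [Fin.prod_univ_succ, abs_mul, h4, mul_comm]
        refine mul_le_mul_of_nonneg_right ?_ (abs_nonneg _)
        have := abs_prod_le Finset.univ (fun i : Fin s => ∫ y, Q g h i.succ y ∂ν) (B * B)
          (fun i => int_abs_le ν _ _ (hQb g h i.succ))
        rw [Finset.card_univ, Fintype.card_fin] at this
        refine this.trans (le_of_eq ?_)
        rw [← sq, ← pow_mul]
      by_cases hκ : g 0 / h 0 ∈ K
      · have h7 : (1 : ℝ) ≤ ∑ κ ∈ K,
            {x | ww S φ n a 0 x = κ * ww S φ n b 0 x}.indicator (fun _ => (1 : ℝ)) x := by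
          have h8 : x ∈ {x | ww S φ n a 0 x = (g 0 / h 0) * ww S φ n b 0 x} := by
            show ww S φ n a 0 x = (g 0 / h 0) * ww S φ n b 0 x
            exact (div_mul_cancel _ _).symm
          have h9 := Finset.single_le_sum (f := fun κ =>
            {x | ww S φ n a 0 x = κ * ww S φ n b 0 x}.indicator (fun _ => (1 : ℝ)) x)
            (fun κ _ => Set.indicator_nonneg (fun _ _ => zero_le_one) _) hκ
          rw [Set.indicator_of_mem h8] at h9
          exact h9
        have h10 : B ^ (2 * s) * |ρ (g 0 / h 0)| ≤ B ^ (2 * s + 2) := by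
          rw [pow_add]
          refine mul_le_mul_of_nonneg_left ?_ (hBp _).le
          rw [sq]
          exact hρb _
        have h11 : B ^ (2 * s + 2) ≤ B ^ (2 * s + 2) * ∑ κ ∈ K,
            {x | ww S φ n a 0 x = κ * ww S φ n b 0 x}.indicator (fun _ => (1 : ℝ)) x :=
          le_mul_of_one_le_right hBB.le h7
        linarith
      · have h7 := (hK _ hκ).le
        have h8 : B ^ (2 * s) * |ρ (g 0 / h 0)| ≤ τ / 4 := by
          have h9 := mul_le_mul_of_nonneg_left h7 (hBp (2 * s)).le
          refine h9.trans (le_of_eq ?_)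
          have := (hBp (2 * s)).ne'
          field_simp
        have h10 : 0 ≤ B ^ (2 * s + 2) * ∑ κ ∈ K,
            {x | ww S φ n a 0 x = κ * ww S φ n b 0 x}.indicator (fun _ => (1 : ℝ)) x :=
          mul_nonneg hBB.le hκs
        linarith
  -- integration
  have i1 : Integrable (fun x => B ^ (2 * s + 2) * (bad n).indicator (fun _ => (1 : ℝ)) x) μ :=
    ((integrable_const _).indicator (hbadm n)).const_mul _
  have i2 : Integrable (fun x => ∑ g ∈ TW, ∑ h ∈ TW, D g h n x) μ :=
    integrable_finsetSum _ fun g _ => integrable_finsetSum _ fun h _ => hDi g h n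
  have i4 : Integrable (fun x => B ^ (2 * s + 2) * ∑ κ ∈ K,
        {x | ww S φ n a 0 x = κ * ww S φ n b 0 x}.indicator (fun _ => (1 : ℝ)) x) μ :=
    (integrable_finsetSum _ fun κ _ => (integrable_const _).indicator (hcm κ)).const_mul _
  have hGi : Integrable (fun x => |Gam ν S φ q n a b x|) μ := by
    refine Integrable.of_bound (Gam_meas ν hUm S hS.measurable φ hφ q hq n a
      b).abs.aestronglyMeasurable (B ^ (s + 1) * B ^ (s + 1)) (ae_of_all _ fun x => ?_)
    rw [Real.norm_eq_abs, abs_abs]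
    refine int_abs_le ν _ _ fun y => ?_
    rw [abs_mul]
    refine mul_le_mul ?_ ?_ (abs_nonneg _) (pow_nonneg hB0 _)
    · have := abs_prod_le Finset.univ (fun i : Fin (s + 1) =>
        q i.castSucc (ww S φ n a i x • (coc S φ (n i.castSucc) x • y))) B (fun i => hB _ _)
      simpa using this
    · have := abs_prod_le Finset.univ (fun i : Fin (s + 1) =>
        q i.castSucc (ww S φ n b i x • (coc S φ (n i.castSucc) x • y))) B (fun i => hB _ _)
      simpa using this
  have hint := integral_mono hGi (((i1.add i2).add (integrable_const (τ / 4))).add i4) hpt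
  have e1 : ∫ x, (B ^ (2 * s + 2) * (bad n).indicator (fun _ => (1 : ℝ)) x +
      (∑ g ∈ TW, ∑ h ∈ TW, D g h n x) + τ / 4 +
      B ^ (2 * s + 2) * ∑ κ ∈ K,
        {x | ww S φ n a 0 x = κ * ww S φ n b 0 x}.indicator (fun _ => (1 : ℝ)) x) ∂μ =
      B ^ (2 * s + 2) * μ.real (bad n) + (∑ g ∈ TW, ∑ h ∈ TW, ∫ x, D g h n x ∂μ) + τ / 4 +
      B ^ (2 * s + 2) * ∑ κ ∈ K, μ.real {x | ww S φ n a 0 x = κ * ww S φ n b 0 x} := by
    have f1 : ∫ x, (B ^ (2 * s + 2) * (bad n).indicator (fun _ => (1 : ℝ)) x) ∂μ =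
        B ^ (2 * s + 2) * μ.real (bad n) := by
      rw [integral_const_mul, integral_indicator_const _ (hbadm n)]
      simp
    have f2 : ∫ x, (∑ g ∈ TW, ∑ h ∈ TW, D g h n x) ∂μ = ∑ g ∈ TW, ∑ h ∈ TW, ∫ x, D g h n x ∂μ := by
      rw [integral_finsetSum _ fun g _ => integrable_finsetSum _ fun h _ => hDi g h n]
      refine Finset.sum_congr rfl fun g _ => ?_
      rw [integral_finsetSum _ fun h _ => hDi g h n]
    have f4 : ∫ x, (B ^ (2 * s + 2) * ∑ κ ∈ K,
        {x | ww S φ n a 0 x = κ * ww S φ n b 0 x}.indicator (fun _ => (1 : ℝ)) x) ∂μ =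
        B ^ (2 * s + 2) * ∑ κ ∈ K, μ.real {x | ww S φ n a 0 x = κ * ww S φ n b 0 x} := by
      rw [integral_const_mul, integral_finsetSum _ fun κ _ =>
        (integrable_const _).indicator (hcm κ)]
      congr 1
      refine Finset.sum_congr rfl fun κ _ => ?_
      rw [integral_indicator_const _ (hcm κ)]
      simp
    have g1 := integral_add ((i1.add i2).add (integrable_const (τ / 4))) i4
    have g2 := integral_add (i1.add i2) (integrable_const (μ := μ) (τ / 4))
    have g3 := integral_add i1 i2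
    simp only [Pi.add_apply] at g1 g2 g3
    rw [g1, g2, g3, f1, f2, f4, integral_const, probReal_univ, one_smul]
  simp only [Pi.add_apply] at hint
  rw [e1] at hint
  refine hint.trans_lt ?_
  have b1 : B ^ (2 * s + 2) * μ.real (bad n) ≤ τ / 4 := by
    have h1 := mul_le_mul_of_nonneg_left (hbadμ n) (hBp (2 * s + 2)).le
    refine h1.trans (le_of_eq ?_)
    rw [he]
    have := (hBp (2 * s + 2)).ne'
    have h2 : ((s : ℝ) + 1) ≠ 0 := by positivity
    field_simp
    ring
  have b2 : B ^ (2 * s + 2) * ∑ κ ∈ K, μ.real {x | ww S φ n a 0 x = κ * ww S φ n b 0 x} ≤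
      τ / 4 := by
    have h1 : ∑ κ ∈ K, μ.real {x | ww S φ n a 0 x = κ * ww S φ n b 0 x} ≤ K.card * (2 * δ) := by
      refine (Finset.sum_le_card_nsmul _ _ (2 * δ) fun κ hκ => (hn2 κ hκ).le).trans ?_
      rw [nsmul_eq_mul]
    have h2 := mul_le_mul_of_nonneg_left h1 (hBp (2 * s + 2)).le
    refine h2.trans ?_
    have h3 : B ^ (2 * s + 2) * (K.card * (2 * δ)) =
        ((K.card : ℝ) / ((K.card : ℝ) + 1)) * (τ / 4) := by
      rw [hδ]
      have := (hBp (2 * s + 2)).ne'
      have h4 : ((K.card : ℝ) + 1) ≠ 0 := by positivity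
      field_simp
      ring
    rw [h3]
    have h5 : (K.card : ℝ) / ((K.card : ℝ) + 1) ≤ 1 := by
      rw [div_le_one (by positivity)]
      linarith
    have h6 : 0 < τ / 4 := by positivity
    nlinarith
  linarith

end Pool.Agent.TH294.RK
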