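import Pool.Agent.TH294.RK.Basic

/-!
# A van der Corput inequality for skew products
-/

set_option autoImplicit false
set_option linter.unusedSectionVars false

namespace Pool.Agent.TH294.RK

open MeasureTheory Filter Topology H567MM

section general

theorem sq_int_le {Z : Type*} [MeasurableSpace Z] (P : Measure Z) [IsProbabilityMeasure P]
    (F : Z → ℝ) (hF : Measurable F) (C : ℝ) (hC : ∀ z, |F z| ≤ C) :
    (∫ z, F z ∂P) ^ 2 ≤ ∫ z, F z ^ 2 ∂P := by
  have hi : Integrable F P := Integrable.of_bound hF.aestronglyMeasurable C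
    (ae_of_all _ fun z => by rw [Real.norm_eq_abs]; exact hC z)
  have hi2 : Integrable (fun z => F z ^ 2) P :=
    Integrable.of_bound (hF.pow_const 2).aestronglyMeasurable (C ^ 2)
      (ae_of_all _ fun z => by
        rw [Real.norm_eq_abs, abs_pow]
        exact pow_le_pow_left₀ (abs_nonneg _) (hC z) 2)
  set m := ∫ z, F z ∂P with hm
  have h0 : 0 ≤ ∫ z, (F z - m) ^ 2 ∂P := integral_nonneg fun z => sq_nonneg _
  have h1 : ∫ z, (F z - m) ^ 2 ∂P = ∫ z, F z ^ 2 ∂P - m ^ 2 := by
    have e : ∀ z, (F z - m) ^ 2 = F z ^ 2 - (2 * m) * F z + m ^ 2 := fun z => by ring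
    simp only [e]
    have e1 : ∫ z, (F z ^ 2 - 2 * m * F z + m ^ 2) ∂P =
        ∫ z, (F z ^ 2 - 2 * m * F z) ∂P + ∫ _z, m ^ 2 ∂P :=
      integral_add (hi2.sub (hi.const_mul _)) (integrable_const _)
    have e2 : ∫ z, (F z ^ 2 - 2 * m * F z) ∂P = ∫ z, F z ^ 2 ∂P - ∫ z, 2 * m * F z ∂P :=
      integral_sub hi2 (hi.const_mul _)
    rw [e1, e2, integral_const_mul, integral_const, probReal_univ, one_smul, ← hm]
    ring
  linarith

theorem int_comp {Z : Type*} [MeasurableSpace Z] (P : Measure Z) (R : Z → Z)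
    (hR : MeasurePreserving R P P) (F : Z → ℝ) (hF : Measurable F) :
    ∫ z, F (R z) ∂P = ∫ z, F z ∂P := by
  have h1 : AEStronglyMeasurable F (Measure.map R P) := hF.aestronglyMeasurable
  rw [← integral_map hR.measurable.aemeasurable h1, hR.map_eq]

end general

section

variable {X Y G : Type*} [MeasurableSpace X] [MeasurableSpace Y] [CommGroup G] [Countable G]
  [MulAction G Y]

theorem coc_level (S : X → X) (hS : Measurable S) (φ : X → G)
    (hφ : ∀ g, MeasurableSet {x | φ x = g}) (n : ℕ) (g : G) :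
    MeasurableSet {x | coc S φ n x = g} := by
  let _ : MeasurableSpace G := ⊤
  have : DiscreteMeasurableSpace G := ⟨fun _ => trivial⟩
  have hφm : Measurable φ := measurable_to_countable' fun g => hφ g
  exact coc_measurable S hS φ hφm n (measurableSet_singleton g)

theorem meas_act (hU : ∀ g : G, Measurable fun y : Y => g • y) (v : X → G)
    (hv : ∀ g, MeasurableSet {x | v x = g}) : Measurable fun p : X × Y => v p.1 • p.2 := by
  intro t ht
  have e : (fun p : X × Y => v p.1 • p.2) ⁻¹' t =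
      ⋃ g : G, (Prod.fst ⁻¹' {x | v x = g}) ∩ (Prod.snd ⁻¹' ((fun y : Y => g • y) ⁻¹' t)) := by
    ext p
    simp only [Set.mem_preimage, Set.mem_iUnion, Set.mem_inter_iff, Set.mem_ofPred_eq]
    constructor
    · intro h
      exact ⟨v p.1, rfl, h⟩
    · rintro ⟨g, h1, h2⟩
      rw [h1]
      exact h2
  rw [e]
  exact MeasurableSet.iUnion fun g => ((hv g).preimage measurable_fst).inter
    (((hU g) ht).preimage measurable_snd)

theorem level_comp (v : X → G) (hv : ∀ g, MeasurableSet {x | v x = g}) (R : X → X)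
    (hR : Measurable R) (g : G) : MeasurableSet {x | v (R x) = g} := (hv g).preimage hR

theorem level_op₂ (v w : X → G) (hv : ∀ g, MeasurableSet {x | v x = g})
    (hw : ∀ g, MeasurableSet {x | w x = g}) (F : G → G → G) (g : G) :
    MeasurableSet {x | F (v x) (w x) = g} := by
  have e : {x | F (v x) (w x) = g} =
      ⋃ p ∈ {p : G × G | F p.1 p.2 = g}, ({x | v x = p.1} ∩ {x | w x = p.2}) := by
    ext x
    simp only [Set.mem_ofPred_eq, Set.mem_iUnion, Set.mem_inter_iff, exists_prop]
    constructor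
    · intro h
      exact ⟨(v x, w x), h, rfl, rfl⟩
    · rintro ⟨p, hp, h1, h2⟩
      rw [h1, h2]
      exact hp
  rw [e]
  exact MeasurableSet.biUnion (Set.to_countable _) fun p _ => (hv _).inter (hw _)

/-- the fibre integral -/
noncomputable def theta (ν : Measure Y) (S : X → X) (φ : X → G) {r : ℕ} (q : Fin r → Y → ℝ)
    (n : Fin r → ℕ) (x : X) : ℝ := ∫ y, ∏ i, q i (coc S φ (n i) x • y) ∂ν

/-- the shifts -/
noncomputable def ww (S : X → X) (φ : X → G) {s : ℕ} (n : Fin (s + 2) → ℕ) (a : ℕ)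
    (i : Fin (s + 1)) (x : X) : G :=
  coc S φ a (S^[n i.castSucc] x) / coc S φ a (S^[n (Fin.last _)] x)

/-- the correlations of the shifted products -/
noncomputable def Gam (ν : Measure Y) (S : X → X) (φ : X → G) {s : ℕ} (q : Fin (s + 2) → Y → ℝ)
    (n : Fin (s + 2) → ℕ) (a b : ℕ) (x : X) : ℝ :=
  ∫ y, (∏ i : Fin (s + 1), q i.castSucc (ww S φ n a i x • (coc S φ (n i.castSucc) x • y))) *
    (∏ i : Fin (s + 1), q i.castSucc (ww S φ n b i x • (coc S φ (n i.castSucc) x • y))) ∂ν

theorem meas_q (hU : ∀ g : G, Measurable fun y : Y => g • y) (q : Y → ℝ) (hq : Measurable q)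
    (v : X → G) (hv : ∀ g, MeasurableSet {x | v x = g}) :
    Measurable fun p : X × Y => q (v p.1 • p.2) := hq.comp (meas_act hU v hv)

theorem theta_meas (ν : Measure Y) [IsProbabilityMeasure ν]
    (hU : ∀ g : G, Measurable fun y : Y => g • y) (S : X → X) (hS : Measurable S) (φ : X → G)
    (hφ : ∀ g, MeasurableSet {x | φ x = g}) {r : ℕ} (q : Fin r → Y → ℝ)
    (hq : ∀ i, Measurable (q i)) (n : Fin r → ℕ) : Measurable (theta ν S φ q n) := by
  have h1 : Measurable fun p : X × Y => ∏ i, q i (coc S φ (n i) p.1 • p.2) :=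
    Finset.measurable_prod _ fun i _ => meas_q hU (q i) (hq i) _ (coc_level S hS φ hφ (n i))
  exact (h1.stronglyMeasurable.integral_prod_right' (ν := ν)).measurable

theorem ww_level (S : X → X) (hS : Measurable S) (φ : X → G)
    (hφ : ∀ g, MeasurableSet {x | φ x = g}) {s : ℕ} (n : Fin (s + 2) → ℕ) (a : ℕ)
    (i : Fin (s + 1)) (g : G) : MeasurableSet {x | ww S φ n a i x = g} :=
  level_op₂ (fun x => coc S φ a (S^[n i.castSucc] x)) (fun x => coc S φ a (S^[n (Fin.last _)] x))
    (fun g => level_comp _ (coc_level S hS φ hφ a) _ (hS.iterate _) g)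
    (fun g => level_comp _ (coc_level S hS φ hφ a) _ (hS.iterate _) g) (fun g h => g / h) g

theorem wprod_meas (hU : ∀ g : G, Measurable fun y : Y => g • y) (S : X → X) (hS : Measurable S)
    (φ : X → G) (hφ : ∀ g, MeasurableSet {x | φ x = g}) {s : ℕ} (q : Fin (s + 2) → Y → ℝ)
    (hq : ∀ i, Measurable (q i)) (n : Fin (s + 2) → ℕ) (a : ℕ) :
    Measurable fun p : X × Y =>
      ∏ i : Fin (s + 1), q i.castSucc (ww S φ n a i p.1 • (coc S φ (n i.castSucc) p.1 • p.2)) := by
  refine Finset.measurable_prod _ fun i _ => ?_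
  simp only [smul_smul]
  exact meas_q hU (q i.castSucc) (hq _) (fun x => ww S φ n a i x * coc S φ (n i.castSucc) x)
    (fun g => level_op₂ _ _ (ww_level S hS φ hφ n a i) (coc_level S hS φ hφ _)
      (fun g h => g * h) g)

theorem Gam_meas (ν : Measure Y) [IsProbabilityMeasure ν]
    (hU : ∀ g : G, Measurable fun y : Y => g • y) (S : X → X) (hS : Measurable S) (φ : X → G)
    (hφ : ∀ g, MeasurableSet {x | φ x = g}) {s : ℕ} (q : Fin (s + 2) → Y → ℝ)
    (hq : ∀ i, Measurable (q i)) (n : Fin (s + 2) → ℕ) (a b : ℕ) :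
    Measurable (Gam ν S φ q n a b) := by
  have h1 := (wprod_meas hU S hS φ hφ q hq n a).mul (wprod_meas hU S hS φ hφ q hq n b)
  exact (h1.stronglyMeasurable.integral_prod_right' (ν := ν)).measurable

theorem abs_prod_le {ι : Type*} (I : Finset ι) (f : ι → ℝ) (B : ℝ)
    (h : ∀ i, |f i| ≤ B) : |∏ i ∈ I, f i| ≤ B ^ I.card := by
  rw [Finset.abs_prod]
  exact (Finset.prod_le_prod (fun _ _ => abs_nonneg _) fun i _ => h i).trans
    (le_of_eq (by rw [Finset.prod_const]))

theorem int_abs_le {Z : Type*} [MeasurableSpace Z] (P : Measure Z) [IsProbabilityMeasure P]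
    (F : Z → ℝ) (C : ℝ) (hC : ∀ z, |F z| ≤ C) : |∫ z, F z ∂P| ≤ C := by
  have h := norm_integral_le_of_norm_le_const (μ := P) (f := F) (C := C)
    (ae_of_all _ fun z => by rw [Real.norm_eq_abs]; exact hC z)
  rwa [probReal_univ, mul_one, Real.norm_eq_abs] at h

/-- the pointwise shift formula -/
theorem theta_shift (ν : Measure Y) [IsProbabilityMeasure ν]
    (hU : ∀ g : G, MeasurePreserving (fun y : Y => g • y) ν ν) (S : X → X) (φ : X → G) {s : ℕ}
    (q : Fin (s + 2) → Y → ℝ) (hq : ∀ i, Measurable (q i)) (n : Fin (s + 2) → ℕ) (a : ℕ) (x : X) :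
    theta ν S φ q n (S^[a] x) =
      ∫ y, (∏ i : Fin (s + 1),
          q i.castSucc (ww S φ n a i x • (coc S φ (n i.castSucc) x • y))) *
        q (Fin.last _) (coc S φ (n (Fin.last _)) x • y) ∂ν := by
  set g : G := coc S φ a x / coc S φ a (S^[n (Fin.last _)] x) with hg
  have hc : ∀ m, coc S φ m (S^[a] x) * g =
      coc S φ a (S^[m] x) / coc S φ a (S^[n (Fin.last _)] x) * coc S φ m x := by
    intro m
    have h1 := coc_add S φ a m x
    have h2 := coc_add S φ m a x
    rw [add_comm m a, h1] at h2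
    rw [hg, mul_div_assoc', mul_comm (coc S φ m (S^[a] x)), h2, div_mul_eq_mul_div, mul_comm]
  have hm : Measurable fun y : Y => ∏ i, q i (coc S φ (n i) (S^[a] x) • y) :=
    Finset.measurable_prod _ fun i _ => (hq i).comp (hU _).measurable
  rw [theta, ← int_comp ν _ (hU g) _ hm]
  congr 1
  funext y
  rw [Fin.prod_univ_castSucc]
  congr 1
  · refine Finset.prod_congr rfl fun i _ => ?_
    rw [smul_smul, hc, ww, smul_smul]
  · rw [smul_smul, hc, div_self', one_mul]

/-- the van der Corput inequality -/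
theorem vdc (μ : Measure X) [IsProbabilityMeasure μ] (ν : Measure Y) [IsProbabilityMeasure ν]
    (hU : ∀ g : G, MeasurePreserving (fun y : Y => g • y) ν ν) (S : X → X)
    (hS : MeasurePreserving S μ μ) (φ : X → G)
    (hφ : ∀ g, MeasurableSet {x | φ x = g}) {s : ℕ} (q : Fin (s + 2) → Y → ℝ)
    (hq : ∀ i, Measurable (q i)) (B : ℝ) (hB : ∀ i y, |q i y| ≤ B) (n : Fin (s + 2) → ℕ)
    (T : Finset ℕ) :
    ((T.card : ℝ) * ∫ x, |theta ν S φ q n x| ∂μ) ^ 2 ≤
      B ^ 2 * ∑ a ∈ T, ∑ b ∈ T, ∫ x, |Gam ν S φ q n a b x| ∂μ := by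
  have hUm : ∀ g : G, Measurable fun y : Y => g • y := fun g => (hU g).measurable
  have hne : Nonempty Y := by
    by_contra hX
    rw [not_nonempty_iff] at hX
    have := measure_univ (μ := ν)
    rw [Set.univ_eq_empty_iff.2 hX, measure_empty] at this
    exact zero_ne_one this
  have hB0 : 0 ≤ B := (abs_nonneg _).trans (hB 0 (Classical.arbitrary Y))
  have hθm := theta_meas ν hUm S hS.measurable φ hφ q hq n
  have hθb : ∀ x, |theta ν S φ q n x| ≤ B ^ (s + 2) := by
    intro x
    refine int_abs_le ν _ _ fun y => ?_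
    have := abs_prod_le Finset.univ (fun i => q i (coc S φ (n i) x • y)) B (fun i => hB i _)
    simpa using this
  have hΓm := fun a b => Gam_meas ν hUm S hS.measurable φ hφ q hq n a b
  have hΓb : ∀ a b x, |Gam ν S φ q n a b x| ≤ B ^ (s + 1) * B ^ (s + 1) := by
    intro a b x
    refine int_abs_le ν _ _ fun y => ?_
    rw [abs_mul]
    refine mul_le_mul ?_ ?_ (abs_nonneg _) (pow_nonneg hB0 _)
    · have := abs_prod_le Finset.univ (fun i : Fin (s + 1) =>
        q i.castSucc (ww S φ n a i x • (coc S φ (n i.castSucc) x • y))) B (fun i => hB _ _)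
      simpa using this
    · have := abs_prod_le Finset.univ (fun i : Fin (s + 1) =>
        q i.castSucc (ww S φ n b i x • (coc S φ (n i.castSucc) x • y))) B (fun i => hB _ _)
      simpa using this
  -- pointwise inequality
  have hpt : ∀ x, (∑ a ∈ T, |theta ν S φ q n (S^[a] x)|) ^ 2 ≤
      B ^ 2 * ∑ a ∈ T, ∑ b ∈ T, |Gam ν S φ q n a b x| := by
    intro x
    set σ : ℕ → ℝ := fun a => if 0 ≤ theta ν S φ q n (S^[a] x) then 1 else -1 with hσ
    have hσ1 : ∀ a, |theta ν S φ q n (S^[a] x)| = σ a * theta ν S φ q n (S^[a] x) := by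
      intro a
      simp only [hσ]
      split_ifs with h
      · rw [abs_of_nonneg h, one_mul]
      · rw [abs_of_neg (not_le.1 h)]
        ring
    have hσ2 : ∀ a, |σ a| = 1 := by
      intro a
      simp only [hσ]
      split_ifs <;> simp
    set Pa : ℕ → Y → ℝ := fun a y => ∏ i : Fin (s + 1),
      q i.castSucc (ww S φ n a i x • (coc S φ (n i.castSucc) x • y)) with hPa
    have hPam : ∀ a, Measurable (Pa a) := fun a => Finset.measurable_prod _ fun i _ =>
      (hq _).comp ((hUm _).comp (hUm _))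
    have hPab : ∀ a y, |Pa a y| ≤ B ^ (s + 1) := by
      intro a y
      have := abs_prod_le Finset.univ (fun i : Fin (s + 1) =>
        q i.castSucc (ww S φ n a i x • (coc S φ (n i.castSucc) x • y))) B (fun i => hB _ _)
      simpa [hPa] using this
    set ql : Y → ℝ := fun y => q (Fin.last _) (coc S φ (n (Fin.last _)) x • y) with hql
    have hqlm : Measurable ql := (hq _).comp (hUm _)
    have hqlb : ∀ y, |ql y| ≤ B := fun y => hB _ _
    have hintP : ∀ a, Integrable (fun y => Pa a y * ql y) ν := fun a =>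
      Integrable.of_bound ((hPam a).mul hqlm).aestronglyMeasurable (B ^ (s + 1) * B)
        (ae_of_all _ fun y => by
          rw [Real.norm_eq_abs, abs_mul]
          exact mul_le_mul (hPab a y) (hqlb y) (abs_nonneg _) (pow_nonneg hB0 _))
    have h1 : ∑ a ∈ T, |theta ν S φ q n (S^[a] x)| = ∫ y, (∑ a ∈ T, σ a * Pa a y) * ql y ∂ν := by
      have e : ∀ y, (∑ a ∈ T, σ a * Pa a y) * ql y = ∑ a ∈ T, σ a * (Pa a y * ql y) := by
        intro y
        rw [Finset.sum_mul]
        exact Finset.sum_congr rfl fun a _ => mul_assoc _ _ _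
      simp only [e]
      rw [integral_finsetSum _ fun a _ => (hintP a).const_mul _]
      refine Finset.sum_congr rfl fun a _ => ?_
      rw [integral_const_mul, hσ1 a, theta_shift ν hU S φ q hq n a x]
    have hSm : Measurable fun y => ∑ a ∈ T, σ a * Pa a y :=
      Finset.measurable_sum _ fun a _ => (hPam a).const_mul _
    have hSb : ∀ y, |∑ a ∈ T, σ a * Pa a y| ≤ T.card * B ^ (s + 1) := by
      intro y
      refine (Finset.abs_sum_le_sum_abs _ _).trans ?_
      refine (Finset.sum_le_card_nsmul T _ (B ^ (s + 1)) fun a _ => ?_).trans (by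
        rw [nsmul_eq_mul])
      rw [abs_mul, hσ2, one_mul]
      exact hPab a y
    have h2 := sq_int_le ν (fun y => (∑ a ∈ T, σ a * Pa a y) * ql y) (hSm.mul hqlm)
      (T.card * B ^ (s + 1) * B) (fun y => by
        rw [abs_mul]
        exact mul_le_mul (hSb y) (hqlb y) (abs_nonneg _) (by positivity))
    rw [h1]
    refine h2.trans ?_
    have hS2 : Integrable (fun y => (∑ a ∈ T, σ a * Pa a y) ^ 2) ν :=
      Integrable.of_bound (hSm.pow_const 2).aestronglyMeasurable ((T.card * B ^ (s + 1)) ^ 2)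
        (ae_of_all _ fun y => by
          rw [Real.norm_eq_abs, abs_pow]
          exact pow_le_pow_left₀ (abs_nonneg _) (hSb y) 2)
    have h3 : ∫ y, ((∑ a ∈ T, σ a * Pa a y) * ql y) ^ 2 ∂ν ≤
        ∫ y, B ^ 2 * (∑ a ∈ T, σ a * Pa a y) ^ 2 ∂ν := by
      refine integral_mono ?_ (hS2.const_mul _) fun y => ?_
      · refine Integrable.of_bound ((hSm.mul hqlm).pow_const 2).aestronglyMeasurable
          ((T.card * B ^ (s + 1) * B) ^ 2) (ae_of_all _ fun y => ?_)
        rw [Real.norm_eq_abs, abs_pow]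
        refine pow_le_pow_left₀ (abs_nonneg _) ?_ 2
        rw [abs_mul]
        exact mul_le_mul (hSb y) (hqlb y) (abs_nonneg _) (by positivity)
      · show ((∑ a ∈ T, σ a * Pa a y) * ql y) ^ 2 ≤ B ^ 2 * (∑ a ∈ T, σ a * Pa a y) ^ 2
        rw [mul_pow, mul_comm]
        refine mul_le_mul_of_nonneg_right ?_ (sq_nonneg _)
        rw [← sq_abs (ql y)]
        exact pow_le_pow_left₀ (abs_nonneg _) (hqlb y) 2
    refine h3.trans ?_
    rw [integral_const_mul]
    refine mul_le_mul_of_nonneg_left ?_ (sq_nonneg _)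
    have hintPP : ∀ a b, Integrable (fun y => Pa a y * Pa b y) ν := fun a b =>
      Integrable.of_bound ((hPam a).mul (hPam b)).aestronglyMeasurable
        (B ^ (s + 1) * B ^ (s + 1)) (ae_of_all _ fun y => by
          rw [Real.norm_eq_abs, abs_mul]
          exact mul_le_mul (hPab a y) (hPab b y) (abs_nonneg _) (pow_nonneg hB0 _))
    have h4 : ∫ y, (∑ a ∈ T, σ a * Pa a y) ^ 2 ∂ν =
        ∑ a ∈ T, ∑ b ∈ T, σ a * σ b * Gam ν S φ q n a b x := by
      have e : ∀ y, (∑ a ∈ T, σ a * Pa a y) ^ 2 =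
          ∑ a ∈ T, ∑ b ∈ T, σ a * σ b * (Pa a y * Pa b y) := by
        intro y
        rw [sq, Finset.sum_mul_sum]
        refine Finset.sum_congr rfl fun a _ => Finset.sum_congr rfl fun b _ => ?_
        ring
      simp only [e]
      rw [integral_finsetSum _ fun a _ => integrable_finsetSum _ fun b _ =>
        (hintPP a b).const_mul _]
      refine Finset.sum_congr rfl fun a _ => ?_
      rw [integral_finsetSum _ fun b _ => (hintPP a b).const_mul _]
      refine Finset.sum_congr rfl fun b _ => ?_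
      rw [integral_const_mul]
      rfl
    rw [h4]
    refine Finset.sum_le_sum fun a _ => Finset.sum_le_sum fun b _ => ?_
    refine (le_abs_self _).trans ?_
    rw [abs_mul, abs_mul, hσ2, hσ2, one_mul, one_mul]
  -- integration
  have hsm : Measurable fun x => ∑ a ∈ T, |theta ν S φ q n (S^[a] x)| :=
    Finset.measurable_sum _ fun a _ => (hθm.comp (hS.iterate a).measurable).abs
  have hsb : ∀ x, |(∑ a ∈ T, |theta ν S φ q n (S^[a] x)|)| ≤ T.card * B ^ (s + 2) := by
    intro x
    refine (Finset.abs_sum_le_sum_abs _ _).trans ?_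
    refine (Finset.sum_le_card_nsmul T _ (B ^ (s + 2)) fun a _ => ?_).trans (by
      rw [nsmul_eq_mul])
    rw [abs_abs]
    exact hθb _
  have h5 := sq_int_le μ _ hsm _ hsb
  have h6 : ∫ x, ∑ a ∈ T, |theta ν S φ q n (S^[a] x)| ∂μ =
      (T.card : ℝ) * ∫ x, |theta ν S φ q n x| ∂μ := by
    rw [integral_finsetSum]
    · have : ∀ a ∈ T, ∫ x, |theta ν S φ q n (S^[a] x)| ∂μ = ∫ x, |theta ν S φ q n x| ∂μ :=
        fun a _ => int_comp μ _ (hS.iterate a) (fun x => |theta ν S φ q n x|) hθm.abs
      rw [Finset.sum_congr rfl this, Finset.sum_const, nsmul_eq_mul]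
    · intro a _
      exact Integrable.of_bound (hθm.comp (hS.iterate a).measurable).abs.aestronglyMeasurable
        (B ^ (s + 2)) (ae_of_all _ fun x => by
          rw [Real.norm_eq_abs, abs_abs]
          exact hθb _)
  rw [← h6]
  refine h5.trans ?_
  have hΓi : ∀ a b, Integrable (fun x => |Gam ν S φ q n a b x|) μ := fun a b =>
    Integrable.of_bound (hΓm a b).abs.aestronglyMeasurable (B ^ (s + 1) * B ^ (s + 1))
      (ae_of_all _ fun x => by
        rw [Real.norm_eq_abs, abs_abs]
        exact hΓb a b x)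
  have h7 : ∫ x, (∑ a ∈ T, |theta ν S φ q n (S^[a] x)|) ^ 2 ∂μ ≤
      ∫ x, B ^ 2 * ∑ a ∈ T, ∑ b ∈ T, |Gam ν S φ q n a b x| ∂μ := by
    refine integral_mono ?_ ?_ hpt
    · exact Integrable.of_bound (hsm.pow_const 2).aestronglyMeasurable
        ((T.card * B ^ (s + 2)) ^ 2) (ae_of_all _ fun x => by
          rw [Real.norm_eq_abs, abs_pow]
          exact pow_le_pow_left₀ (abs_nonneg _) (hsb x) 2)
    · exact (integrable_finsetSum _ fun a _ => integrable_finsetSum _ fun b _ =>
        hΓi a b).const_mul _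
  refine h7.trans (le_of_eq ?_)
  rw [integral_const_mul, integral_finsetSum _ fun a _ => integrable_finsetSum _ fun b _ =>
    hΓi a b]
  congr 1
  refine Finset.sum_congr rfl fun a _ => ?_
  rw [integral_finsetSum _ fun b _ => hΓi a b]

end

end Pool.Agent.TH294.RK
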